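import Pool.Prelude.Def_H_3587d628

/-!
Maximum Nash welfare for additive valuations.

An instance is a list of rows, row `i` listing the values of agent `i` for the goods.
An allocation is the list of the owners of the goods.
-/

noncomputable section

namespace Pool.Agent.Lib.MP_778288_lc

/-- The value of agent `i` for its bundle under the allocation `o`. -/
def bundle (I : List (List ℚ)) (o : List ℕ) (i : ℕ) : ℚ :=
  ∑ g ∈ Finset.range o.length, if o.getD g 0 = i then (I.getD i []).getD g 0 else 0

/-- The Nash welfare: the geometric mean of the values of the agents. -/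
def NW (I : List (List ℚ)) (o : List ℕ) : ℝ :=
  (∏ i ∈ Finset.range I.length, (bundle I o i : ℝ)) ^ (1 / (I.length : ℝ))

/-- An instance with at least one agent and `m` goods, all of whose values lie in `{0, 1, H}`
for one natural number `H`. -/
def IsInstance (I : List (List ℚ)) (m : ℕ) : Prop :=
  I ≠ [] ∧ ∃ H : ℕ, ∀ row ∈ I, row.length = m ∧ ∀ v ∈ row, v = 0 ∨ v = 1 ∨ v = H

/-- An allocation of the `m` goods: each good has an owner among the agents. -/
def IsAllocation (I : List (List ℚ)) (m : ℕ) (o : List ℕ) : Prop :=
  o.length = m ∧ ∀ i ∈ o, i < I.length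

/-- `A` returns on every instance an allocation within a factor `α` of every allocation. -/
def IsApprox (α : ℝ) (A : List (List ℚ) → List ℕ) : Prop :=
  ∀ I m, IsInstance I m →
    IsAllocation I m (A I) ∧ ∀ o, IsAllocation I m o → NW I o / α ≤ NW I (A I)

end Pool.Agent.Lib.MP_778288_lc
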