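import Pool.Agent.Lib.MP_778288_lc.Welfare
import Pool.Agent.Lib.MP_778288_lc.Defs
import Pool.Agent.Shared.PCP.PTFin

/-!
From finite types to lists.
-/

noncomputable section

namespace Pool.Agent.Lib.MP_778288_lc

open Finset Pool.Agent.Shared.PCP Pool.Agent.Shared.PolyTime

variable {X X' Y Y' : Type}

/-- The list `L` enumerates without repetition the image of the injection `e`. -/
def Enum (L : List X) (e : X' → X) : Prop :=
  L.Nodup ∧ Function.Injective e ∧ ∀ x, x ∈ L ↔ ∃ y, e y = x

theorem Enum.fin [Fintype X] : Enum (univ : Finset X).toList id :=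
  ⟨nodup_toList _, Function.injective_id, by simp⟩

theorem Enum.range (n : ℕ) : Enum (List.range n) (Fin.val : Fin n → ℕ) :=
  ⟨List.nodup_range, Fin.val_injective, fun x => by
    rw [List.mem_range]; exact ⟨fun h => ⟨⟨x, h⟩, rfl⟩, fun ⟨y, h⟩ => h ▸ y.2⟩⟩

variable {L : List X} {e : X' → X} {L' : List Y} {e' : Y' → Y}

theorem Enum.prod (h : Enum L e) (h' : Enum L' e') : Enum (L.product L') (Prod.map e e') :=
  ⟨h.1.product h'.1, h.2.1.prodMap h'.2.1, fun ⟨x, y⟩ =>
    List.pair_mem_product.trans (by simp [h.2.2, h'.2.2])⟩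

theorem Enum.tup (h : Enum L e) (k : ℕ) : Enum (tuples k L) (fun (t : Fin k → X') i => e (t i)) :=
  ⟨nodup_tuples k h.1, fun _ _ a => funext fun i => h.2.1 (congrFun a i), fun x => by
    simp only [mem_tuples, h.2.2, funext_iff]
    exact Classical.skolem⟩

theorem Enum.sum (h : Enum L e) (h' : Enum L' e') :
    Enum (L.map Sum.inl ++ L'.map Sum.inr) (Sum.map e e') :=
  ⟨List.nodup_append.2 ⟨h.1.map Sum.inl_injective, h'.1.map Sum.inr_injective, by simp⟩,
    h.2.1.sumMap h'.2.1, fun x => by rcases x with x | x <;> simp [h.2.2, h'.2.2]⟩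

theorem Enum.equiv (h : Enum L e) : ∃ f : Fin L.length ≃ X', ∀ i, L[i] = e (f i) := by
  choose f hf using fun i : Fin L.length => (h.2.2 L[i]).1 (List.getElem_mem _)
  refine ⟨Equiv.ofBijective f ⟨fun i j a => ?_, fun y => ?_⟩, fun i => (hf i).symm⟩
  · exact Fin.ext (h.1.getElem_inj_iff.1 ((hf i).symm.trans (a ▸ hf j)))
  · obtain ⟨i, hi, a⟩ := List.getElem_of_mem ((h.2.2 _).2 ⟨y, rfl⟩)
    exact ⟨⟨i, hi⟩, h.2.1 ((hf _).trans a)⟩

theorem Enum.length [Fintype X'] (h : Enum L e) : L.length = Fintype.card X' := by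
  obtain ⟨f, -⟩ := h.equiv
  rw [← Fintype.card_congr f, Fintype.card_fin]

/-- A matrix of natural numbers as an instance. -/
def castM (N : List (List ℕ)) : List (List ℚ) := N.map fun r => r.map fun v : ℕ => (v : ℚ)

/-- The product of the values of the agents. -/
def pv (N : List (List ℕ)) (o : List ℕ) : ℕ :=
  ((List.range N.length).map fun i => ((List.range o.length).map fun g =>
    if o.getD g 0 = i then (N.getD i []).getD g 0 else 0).sum).prod

theorem pv_eq (N : List (List ℕ)) (o : List ℕ) : pv N o = ∏ i ∈ range N.length,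
    ∑ g ∈ range o.length, if o.getD g 0 = i then (N.getD i []).getD g 0 else 0 := rfl

theorem NW_eq (N : List (List ℕ)) (o : List ℕ) :
    NW (castM N) o = (pv N o : ℝ) ^ (1 / (N.length : ℝ)) := by
  have h : ∀ i g, ((castM N).getD i []).getD g 0 = ((N.getD i []).getD g 0 : ℕ) := fun i g => by
    have := List.getD_map N [] (n := i) fun r => r.map fun v : ℕ => (v : ℚ)
    rw [List.map_nil] at this
    rw [castM, this, ← Nat.cast_zero, List.getD_map]
  have h' : (castM N).length = N.length := List.length_map _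
  simp only [NW, bundle, pv_eq, h, h']
  push_cast
  simp only [apply_ite ((↑) : ℚ → ℝ), Rat.cast_natCast, Rat.cast_zero]

theorem bridge [Fintype X'] [Fintype Y'] (h : Enum L e) (h' : Enum L' e') {v : X → Y → ℕ}
    {v' : X' → Y' → ℕ} (hv : ∀ a g, v (e a) (e' g) = v' a g) :
    (∀ o, IsAllocation (castM (L.map fun a => L'.map (v a))) L'.length o →
      ∃ o', (pv (L.map fun a => L'.map (v a)) o : ℝ) = ∏ a, bv v' o' a) ∧
    ∀ o', ∃ o, IsAllocation (castM (L.map fun a => L'.map (v a))) L'.length o ∧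
      (pv (L.map fun a => L'.map (v a)) o : ℝ) = ∏ a, bv v' o' a := by
  obtain ⟨f, hf⟩ := h.equiv
  obtain ⟨f', hf'⟩ := h'.equiv
  have key : ∀ (o : List ℕ) (o' : Y' → X'), o.length = L'.length →
      (∀ j : Fin L'.length, o.getD j 0 = (f.symm (o' (f' j))).val) →
      (pv (L.map fun a => L'.map (v a)) o : ℝ) = ∏ a, bv v' o' a := by
    intro o o' h1 h2
    rw [pv_eq, List.length_map, h1, prod_range, ← Equiv.prod_comp f]
    push_cast
    refine prod_congr rfl fun i _ => ?_
    rw [sum_range, bv, ← Equiv.sum_comp f']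
    refine sum_congr rfl fun j _ => ?_
    rw [h2, ← hv, ← hf, ← hf']
    split_ifs with h3
    · rw [ind_pos (by rw [← Fin.ext h3, Equiv.apply_symm_apply])]
      simp
    · rw [ind_neg fun a => h3 (by rw [a, Equiv.symm_apply_apply]), zero_mul]
  have hl : (castM (L.map fun a => L'.map (v a))).length = L.length := by simp [castM]
  refine ⟨fun o ho => ?_, fun o' => ⟨List.ofFn fun j => (f.symm (o' (f' j))).val, ⟨by simp, ?_⟩,
    key _ _ (by simp) (by simp)⟩⟩
  · have : ∀ j : Fin L'.length, o.getD j 0 < L.length := fun j => by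
      rw [List.getD_eq_getElem _ _ (j.2.trans_eq ho.1.symm), ← hl]
      exact ho.2 _ (List.getElem_mem _)
    exact ⟨fun g => f ⟨o.getD (f'.symm g) 0, this _⟩, key _ _ ho.1 (by simp)⟩
  · simp [hl, List.mem_ofFn]

variable {α : Type} [N487b59b3 α]

theorem prod_pt {l : α → List ℕ} (hl : PT l) : PT (fun a => (l a).prod) := by
  obtain ⟨g, hg, hb⟩ := PT.bound_mem (h := fun _ x => x) (by fun_prop) hl
  have := PT.foldl_grow (f := fun _ (s : ℕ) x => s * x) (s0 := fun _ => 1) (by fun_prop) hl
    (by fun_prop) hg fun a s x hx => (sz_mul_le s x).trans (Nat.add_le_add_left (hb a x hx) _)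
  exact this.of_eq fun a => by rw [List.prod_eq_foldl]

theorem castM_pt {N : α → List (List ℕ)} (h : PT N) : PT (fun a => castM (N a)) := by
  refine PT.map h (PT.map (by fun_prop) ?_)
  refine PT.of_enc (g := fun p : (α × List ℕ) × ℕ => ((p.2, 0), 1)) (by fun_prop) fun p => ?_
  change _ = N487b59b3.bitEncode ((((p.2 : ℚ).num.toNat, (-(p.2 : ℚ).num).toNat)), (p.2 : ℚ).den)
  simp

theorem pv_pt {N : α → List (List ℕ)} {o : α → List ℕ} (h : PT N) (ho : PT o) :
    PT (fun a => pv (N a) (o a)) := by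
  refine prod_pt (PT.map h.range_length (PT.sum (PT.map (PT.range_length (by fun_prop)) ?_)))
  fun_prop

end Pool.Agent.Lib.MP_778288_lc
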