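import Pool.Agent.Lib.MP_778288_lc.Direct

/-!
Completeness of the direct sum: a balanced covering of the items.
-/

set_option linter.unusedSectionVars false
set_option synthInstance.maxSize 2000

noncomputable section

namespace Pool.Agent.Lib.MP_778288_lc

open Finset Pool.Agent.Shared.PCP

theorem indep {R W : Type} [Fintype R] [Fintype W] [AddGroup W] (act : W → R → R)
    (hact : ∀ w, Function.Injective (act w)) {E : R → ℝ} {pt : R → W}
    (hE : ∀ w ρ, E (act w ρ) = E ρ) (hpt : ∀ w ρ, pt (act w ρ) = pt ρ + w) (g : W → ℝ) :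
    Ex (fun ρ => E ρ * g (pt ρ)) = Ex E * Ex g := by
  have h : ∀ w, Ex (fun ρ => E ρ * g (pt ρ)) = Ex fun ρ => E ρ * g (pt ρ + w) := fun w => by
    rw [← Ex_bij (Finite.injective_iff_bijective.1 (hact w))]
    simp only [hE, hpt]
  rw [← Ex_const (α := W) (Ex _), Ex_congr h, Ex_comm]
  simp only [Ex_mul_left, Ex_add_left g, Ex_mul_right]

theorem Ex_ind_eq {α : Type} [Fintype α] (a : α) :
    Ex (fun x => ind (x = a)) = (Fintype.card α : ℝ)⁻¹ := by
  simp only [eq_comm (b := a)]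
  rw [Ex, sum_ind_eq_one, one_div]

theorem Ex_flag (M : ℕ) : Ex (fun a : Fin (M + 1) => ind (a ≠ 0)) = M / (M + 1) := by
  simp only [ne_eq, ind_not, Ex_sub, Ex_const, Ex_ind_eq, Fintype.card_fin, Nat.cast_add,
    Nat.cast_one]
  field_simp; ring

/-- The position that receives an item. -/
def own (z : K × K) (κ : Fin 4) : Fin 4 :=
  if z = 0 then κ else if z.1 = 0 then 0 else if z.2 = 0 then 1 else if z.1 + z.2 = 0 then 2 else 3

theorem own_zero (z : K × K) (κ : Fin 4) :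
    aa 0 (own z κ) * z.1 + bb 0 (own z κ) * z.2 = 0 := by
  revert z κ; decide

theorem own_quarter (i : Fin 4) : Ex (fun z => Ex fun κ => ind (own z κ = i)) = 1 / 4 := by
  have h := pr_eq_card fun z : (K × K) × Fin 4 => own z.1 z.2 = i
  rw [pr, Ex_prod, show (univ.filter fun z : (K × K) × Fin 4 => own z.1 z.2 = i).card = 9 by
    clear h; revert i; decide] at h
  rw [h]; norm_num

theorem code_eq (j i : Fin 4) (X T : K) : aa j i * X + bb j i * T =
    aa 0 i * (aa j 0 * X + bb j 0 * T) + bb 0 i * (aa j 1 * X + bb j 1 * T) := by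
  revert j i X T; decide

theorem aa_self (j : Fin 4) : aa j j = 1 := by revert j; decide
theorem bb_self (j : Fin 4) : bb j j = 0 := by revert j; decide
theorem bb_sq (i : Fin 4) (k : Fin 3) : bb (i.succAbove k) i * bb (i.succAbove k) i = 1 := by
  revert i k; decide

variable {U D V A B : Type} {M : ℕ} [Fintype U] [Fintype D] [Fintype V] [Fintype A]
  [DecidableEq A] [Fintype B] [DecidableEq B] [Nonempty U] [Nonempty D] (Γ : Game U D V A B)
  (σ : U → A) (τ : V → B)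

/-- The codeword of an item. -/
def cw (ω : Fin 4 → Samp M U D A B) (i : Fin 4) : K :=
  ∑ j, (aa j i * (ω j).2.1 (σ (ω j).1.1) + bb j i * (ω j).2.2.1 (τ (Γ.nb (ω j).1.1 (ω j).1.2)))

/-- The value of a gadget under a labelling. -/
def lab (γ : Gad U V A B) : K := γ.1.2 (σ γ.1.1) + ∑ k, (γ.2 k).2 (τ (γ.2 k).1)

/-- No noise at the relevant small label, and a prescribed query. -/
def gA (p : U × (A → K)) (i : Fin 4) (ω : Samp M U D A B) : Prop :=
  ((ω.2.2.2 i).1.1 (σ ω.1.1) ≠ 0 ∧ ω.1.1 = p.1) ∧ qA ω.2 i = p.2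

/-- No noise at the relevant large label, and a prescribed query. -/
def gB (p : V × (B → K)) (j i : Fin 4) (ω : Samp M U D A B) : Prop :=
  ((ω.2.2.2 i).2.1.1 (τ (Γ.nb ω.1.1 ω.1.2)) ≠ 0 ∧ Γ.nb ω.1.1 ω.1.2 = p.1) ∧
    qB (Γ.pj ω.1.1 ω.1.2) j ω.2 i = p.2

theorem cw_code (ω : Fin 4 → Samp M U D A B) (i : Fin 4) :
    cw Γ σ τ ω i = aa 0 i * cw Γ σ τ ω 0 + bb 0 i * cw Γ σ τ ω 1 := by
  simp only [cw, mul_sum, ← sum_add_distrib]
  exact sum_congr rfl fun j _ => code_eq j i _ _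

theorem Ex_gA (p : U × (A → K)) (i : Fin 4) : Ex (fun ω : Samp M U D A B => ind (gA σ p i ω)) =
    M / (M + 1) * (Fintype.card (U × (A → K)) : ℝ)⁻¹ := by
  simp only [gA, ind_and]
  rw [indep (fun (w : A → K) (ω : Samp M U D A B) => (ω.1, ω.2 + (w, 0, fun _ => ((0, w), 0, 0))))
    (fun w ω ω' h => by simpa [Prod.ext_iff] using h) (pt := fun ω => qA ω.2 i)
    (by simp) (fun w ω => funext fun l => by
      simp only [qA, nz, cc, Prod.fst_add, Prod.snd_add, Pi.add_apply, Pi.zero_apply,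
      add_zero]
      split_ifs <;> ring) (fun z => ind (z = p.2)), Ex_prod]
  have h : ∀ l : A, Ex (fun ρ : Rest M A B => ind ((ρ.2.2 i).1.1 l ≠ 0)) = M / (M + 1) := fun l => by
    rw [Ex_snd (fun y : (B → K) × (Fin 4 → Nz M A × Nz M B × K) => ind ((y.2 i).1.1 l ≠ 0)),
      Ex_snd (fun y : Fin 4 → Nz M A × Nz M B × K => ind ((y i).1.1 l ≠ 0)),
      Ex_apply i (fun y : Nz M A × Nz M B × K => ind (y.1.1 l ≠ 0)),
      Ex_fst (fun y : Nz M A => ind (y.1 l ≠ 0)),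
      Ex_fst (fun y : A → Fin (M + 1) => ind (y l ≠ 0)), Ex_apply l (fun y => ind (y ≠ 0)), Ex_flag]
  simp only [Ex_mul_right, h, Ex_mul_left, Ex_fst (fun u : U => ind (u = p.1)), Ex_ind_eq,
    Fintype.card_prod, Nat.cast_mul, mul_inv, mul_assoc]

theorem Ex_gB (hΓ : Γ.Reg) (p : V × (B → K)) (i : Fin 4) (k : Fin 3) :
    Ex (fun ω : Samp M U D A B => ind (gB Γ τ p (i.succAbove k) i ω)) =
      M / (M + 1) * (Fintype.card (V × (B → K)) : ℝ)⁻¹ := by
  simp only [gB, ind_and]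
  rw [indep (fun (w : B → K) (ω : Samp M U D A B) =>
      (ω.1, ω.2 + (0, fun r => bb (i.succAbove k) i * w r, fun _ => (0, (0, w), 0))))
    (fun w ω ω' h => by simpa [Prod.ext_iff] using h)
    (pt := fun ω => qB (Γ.pj ω.1.1 ω.1.2) (i.succAbove k) ω.2 i)
    (by simp) (fun w ω => funext fun l => by
      simp only [qB, nz, af, cc, Prod.fst_add, Prod.snd_add, Pi.add_apply, Pi.zero_apply,
      add_zero, mul_add,
        ← mul_assoc, bb_sq]
      split_ifs <;> ring) (fun z => ind (z = p.2)), Ex_prod]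
  have h : ∀ l : B, Ex (fun ρ : Rest M A B => ind ((ρ.2.2 i).2.1.1 l ≠ 0)) = M / (M + 1) :=
    fun l => by
    rw [Ex_snd (fun y : (B → K) × (Fin 4 → Nz M A × Nz M B × K) => ind ((y.2 i).2.1.1 l ≠ 0)),
      Ex_snd (fun y : Fin 4 → Nz M A × Nz M B × K => ind ((y i).2.1.1 l ≠ 0)),
      Ex_apply i (fun y : Nz M A × Nz M B × K => ind (y.2.1.1 l ≠ 0)),
      Ex_snd (fun y : Nz M B × K => ind (y.1.1 l ≠ 0)), Ex_fst (fun y : Nz M B => ind (y.1 l ≠ 0)),
      Ex_fst (fun y : B → Fin (M + 1) => ind (y l ≠ 0)), Ex_apply l (fun y => ind (y ≠ 0)), Ex_flag]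
  simp only [Ex_mul_right, h, Ex_mul_left]
  rw [Ex_prod, hΓ (fun v => ind (v = p.1))]
  simp only [Ex_ind_eq, Fintype.card_prod, Nat.cast_mul, mul_inv, mul_assoc]

/-- A shift of one test by a codeword. -/
def sh (j : Fin 4) (w : K × K) : Rest M A B :=
  (fun _ => w.1, fun _ => w.2, fun i => ((0, fun _ => aa j i * w.1 + bb j i * w.2),
    (0, fun _ => aa j i * w.1 + bb j i * w.2), aa j i * w.1 + bb j i * w.2))

theorem qA_sh (ρ : Rest M A B) (j : Fin 4) (w : K × K) : qA (ρ + sh j w) j = qA ρ j := by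
  funext l
  simp only [qA, nz, cc, sh, Prod.fst_add, Prod.snd_add, Pi.add_apply, Pi.zero_apply,
      add_zero, aa_self, bb_self]
  split_ifs <;> ring

theorem qB_sh (π : B → A) (ρ : Rest M A B) (j i : Fin 4) (w : K × K) :
    qB π j (ρ + sh j w) i = qB π j ρ i := by
  funext l
  simp only [qB, nz, af, cc, sh, Prod.fst_add, Prod.snd_add, Pi.add_apply, Pi.zero_apply,
      add_zero]
  split_ifs <;> ring

theorem complete (hΓ : Γ.Reg) (h : ∀ u d, Γ.pj u d (τ (Γ.nb u d)) = σ u) :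
    ∃ (ℓ : Gad U V A B → K) (o : (Fin 4 → Samp M U D A B) × Fin 4 → Fin 4), ∀ γ,
      (M / (M + 1)) ^ 4 * (Fintype.card (Gad U V A B) : ℝ)⁻¹ ≤
        Ex fun z => ind (agt Γ z.1 (o z) = (γ, ℓ γ)) := by
  refine ⟨fun γ => -lab σ τ γ, fun z => own (cw Γ σ τ z.1 0, cw Γ σ τ z.1 1) z.2, fun γ => ?_⟩
  let E (i : Fin 4) (ω : Fin 4 → Samp M U D A B) : ℝ := ind (gA σ γ.1 i (ω i)) *
    ∏ k, ind (gB Γ τ (γ.2 k) (i.succAbove k) i (ω (i.succAbove k)))
  have h1 : ∀ i, Ex (fun z : (Fin 4 → Samp M U D A B) × Fin 4 =>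
      E i z.1 * ind (own (cw Γ σ τ z.1 0, cw Γ σ τ z.1 1) z.2 = i)) =
      (M / (M + 1)) ^ 4 * (Fintype.card (Gad U V A B) : ℝ)⁻¹ / 4 := by
    intro i
    rw [Ex_prod]
    simp only [Ex_mul_left]
    rw [indep (fun (w : K × K) (ω : Fin 4 → Samp M U D A B) j =>
        ((ω j).1, (ω j).2 + sh j (Pi.single (M := fun _ => K × K) 0 w j)))
      (fun w ω ω' h => funext fun j => by simpa [Prod.ext_iff] using congrFun h j)
      (pt := fun ω => (cw Γ σ τ ω 0, cw Γ σ τ ω 1)) (E := E i)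
      (fun w ω => by simp only [E, gA, gB, qA_sh, qB_sh]; simp [sh])
      (fun w ω => by
        simp only [cw, sh, Prod.fst_add, Prod.snd_add, Pi.add_apply, Fin.sum_univ_four, mul_add,
          Prod.ext_iff]
        simp [aa, bb]
        constructor <;> ring)
      (fun z => Ex fun κ => ind (own z κ = i)), own_quarter]
    simp only [E]
    rw [Ex_succAbove i (fun ω => ind (gA σ γ.1 i ω))
      (fun k ω => ind (gB Γ τ (γ.2 k) (i.succAbove k) i ω)), Ex_gA]
    simp only [Ex_gB Γ τ hΓ, prod_const, card_univ, Fintype.card_fin]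
    rw [Fintype.card_prod (U × (A → K)), Fintype.card_fun (α := Fin 3), Fintype.card_fin]
    push_cast
    ring
  have h2 : (M / (M + 1)) ^ 4 * (Fintype.card (Gad U V A B) : ℝ)⁻¹ = ∑ i : Fin 4,
      (M / (M + 1)) ^ 4 * (Fintype.card (Gad U V A B) : ℝ)⁻¹ / 4 := by
    rw [Fin.sum_univ_four]; ring
  rw [h2, ← sum_congr rfl fun i _ => h1 i, ← Ex_sum]
  refine Ex_mono fun z => ?_
  simp only [mul_comm (E _ _)]
  rw [sum_ind_eq]
  have h3 := own_zero (cw Γ σ τ z.1 0, cw Γ σ τ z.1 1) z.2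
  rw [← cw_code] at h3
  generalize own (cw Γ σ τ z.1 0, cw Γ σ τ z.1 1) z.2 = i at h3 ⊢
  simp only [E, Fin.prod_univ_three, ← ind_and]
  refine ind_mono fun ⟨a, b⟩ => ?_
  have b : ∀ k, gB Γ τ (γ.2 k) (i.succAbove k) i (z.1 (i.succAbove k)) := by
    simpa [Fin.forall_fin_succ, and_assoc] using b
  have e : (agt Γ z.1 i).1 = γ :=
    Prod.ext (Prod.ext a.1.2 a.2) (funext fun k => Prod.ext (b k).1.2 (b k).2)
  refine Prod.ext e ?_
  rw [← e, eq_neg_iff_add_eq_zero, ← h3]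
  simp only [agt, lab, pA, pB, qA, qB, nz, af, cw, h, if_neg a.1.1, if_neg (b _).1.1,
    Fin.sum_univ_succAbove _ i, aa_self, bb_self, sum_sub_distrib]
  ring

end Pool.Agent.Lib.MP_778288_lc
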