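import Pool.Agent.Lib.MP_778288_lc.Hybrid

/-!
The direct sum of four tests over the tetracode.
-/

set_option linter.unusedSectionVars false
set_option synthInstance.maxSize 2000

noncomputable section

namespace Pool.Agent.Lib.MP_778288_lc

open Finset Pool.Agent.Shared.PCP

/-- Coefficients of the point on the side of the small labels. -/
def aa : Fin 4 → Fin 4 → K := ![![1, 0, 1, 1], ![0, 1, 1, 2], ![0, 1, 1, 2], ![0, 2, 2, 1]]

/-- Coefficients of the free point. -/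
def bb : Fin 4 → Fin 4 → K := ![![0, 1, 1, 2], ![1, 0, 1, 1], ![1, 2, 0, 2], ![1, 1, 2, 0]]

/-- Noise. -/
abbrev Nz (M : ℕ) (ι : Type) := (ι → Fin (M + 1)) × (ι → K)

/-- The randomness of one test apart from the edge. -/
abbrev Rest (M : ℕ) (A B : Type) := (A → K) × (B → K) × (Fin 4 → Nz M A × Nz M B × K)

/-- The randomness of one test. -/
abbrev Samp (M : ℕ) (U D A B : Type) := (U × D) × Rest M A B

/-- Gadgets. -/
abbrev Gad (U V A B : Type) := (U × (A → K)) × (Fin 3 → V × (B → K))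

variable {U D V A B : Type} {M : ℕ}

/-- The shift at position `i`. -/
def cc (ρ : Rest M A B) (i : Fin 4) : K := (ρ.2.2 i).2.2

/-- The point queried on the side of the small labels. -/
def qA (ρ : Rest M A B) (i : Fin 4) (l : A) : K := nz ρ.1 (ρ.2.2 i).1 l - cc ρ i

/-- The point queried on the side of the large labels. -/
def qB (π : B → A) (j : Fin 4) (ρ : Rest M A B) (i : Fin 4) (r : B) : K :=
  nz (af π (aa j i) (bb j i) ρ.1 ρ.2.1) (ρ.2.2 i).2.1 r - cc ρ i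

/-- The query on the side of the small labels. -/
def pA (ω : Samp M U D A B) (i : Fin 4) : U × (A → K) := (ω.1.1, qA ω.2 i)

/-- The query on the side of the large labels. -/
def pB (Γ : Game U D V A B) (j : Fin 4) (ω : Samp M U D A B) (i : Fin 4) : V × (B → K) :=
  (Γ.nb ω.1.1 ω.1.2, qB (Γ.pj ω.1.1 ω.1.2) j ω.2 i)

/-- The agent at position `i` of an item. -/
def agt (Γ : Game U D V A B) (ω : Fin 4 → Samp M U D A B) (i : Fin 4) : Gad U V A B × K :=
  ((pA (ω i) i, fun k => pB Γ (i.succAbove k) (ω (i.succAbove k)) i), ∑ j, cc (ω j).2 i)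

variable [Fintype U] [Fintype D] [Fintype V] [Fintype A] [DecidableEq A] [Fintype B]
  [DecidableEq B] [Nonempty U] [Nonempty D] {Γ : Game U D V A B}

theorem Ex_succAbove {β : Type} [Fintype β] (j : Fin 4) (f : β → ℝ) (g : Fin 3 → β → ℝ) :
    Ex (fun n : Fin 4 → β => f (n j) * ∏ k, g k (n (j.succAbove k))) = Ex f * ∏ k, Ex (g k) := by
  have := Ex_pi_prod (Fin.insertNth (α := fun _ => β → ℝ) j f g)
  simpa only [Fin.prod_univ_succAbove _ j, Fin.insertNth_apply_same,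
    Fin.insertNth_apply_succAbove] using this

theorem bb_ne (j : Fin 4) (k : Fin 3) : bb j (j.succAbove k) ≠ 0 := by
  revert j k; decide

theorem one_inst {δ : ℝ} (hδ : 0 ≤ δ) (hΓ : Γ.Coll (δ ^ 2)) (j : Fin 4)
    {YA : U × (A → K) → K → ℝ} (hA : ∀ p c, |YA p c| ≤ 1) (hA0 : ∀ p, Ex (YA p) = 0)
    {YB : Fin 3 → V × (B → K) → K → ℝ} (hB : ∀ k p c, |YB k p c| ≤ 1) :
    |Ex fun ω : Samp M U D A B => YA (pA ω j) (cc ω.2 j) *
      ∏ k, YB k (pB Γ j ω (j.succAbove k)) (cc ω.2 (j.succAbove k))| ≤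
        3 * ((M + 1) * √δ * √(M + 1)) := by
  have b1 : ∀ u (z : A → K), |Ex fun c => YA (u, fun l => z l - c) c| ≤ 1 := fun u z =>
    (abs_Ex_le _).trans (Ex_le_const zero_le_one fun _ => hA _ _)
  have b2 : ∀ k v (z : B → K), |Ex fun c => YB k (v, fun l => z l - c) c| ≤ 1 := fun k v z =>
    (abs_Ex_le _).trans (Ex_le_const zero_le_one fun _ => hB _ _ _)
  have h := game_bound hδ (C := M + 1) (by positivity) hΓ
    (F := fun u => Tn M fun z => Ex fun c => YA (u, fun l => z l - c) c)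
    (fun u => by
      rw [Ex_Tn, Ex_comm]
      refine ((Ex_congr fun c => ?_).trans (Ex_comm (fun c z => YA (u, z) c))).trans ?_
      · rw [← Ex_add_right (fun z => YA (u, z) c) (fun _ => -c)]
        exact Ex_congr fun z => by congr 2; funext l; simp [sub_eq_add_neg]
      · exact (Ex_congr fun z => hA0 _).trans Ex_zero)
    (fun u => total_Tn M (b1 u)) (fun k => aa j (j.succAbove k)) (bb_ne j)
    (G := fun k v => Tn M fun z => Ex fun c => YB k (v, fun l => z l - c) c)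
    (fun k v => abs_Tn_le (b2 k v)) (fun k v => total_Tn M (b2 k v))
  refine le_of_eq_of_le (congrArg _ ?_) h
  rw [Ex_prod, Ex_prod]
  refine Ex_congr fun u => Ex_congr fun d => ?_
  rw [Ex_prod]
  refine Ex_congr fun x => ?_
  rw [Ex_prod]
  refine Ex_congr fun t => ?_
  refine (Ex_succAbove j (fun n : Nz M A × Nz M B × K => YA (u, fun l => nz x n.1 l - n.2.2) n.2.2)
    (fun k n => YB k (Γ.nb u d, fun r => nz (af (Γ.pj u d) (aa j (j.succAbove k))
      (bb j (j.succAbove k)) x t) n.2.1 r - n.2.2) n.2.2)).trans ?_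
  congr 1
  · rw [Ex_prod]
    exact Ex_congr fun n => Ex_snd (α := Nz M B) (fun c => YA (u, fun l => nz x n l - c) c)
  · refine prod_congr rfl fun k _ => ?_
    refine (Ex_snd (α := Nz M A) (fun n : Nz M B × K => YB k (Γ.nb u d, fun r => nz (af (Γ.pj u d)
      (aa j (j.succAbove k)) (bb j (j.succAbove k)) x t) n.1 r - n.2) n.2)).trans (Ex_prod _)

theorem sound {δ : ℝ} (hδ : 0 ≤ δ) (hΓ : Γ.Coll (δ ^ 2)) (j : Fin 4)
    {Y : Fin 4 → Gad U V A B × K → ℝ} (hY : ∀ i a, |Y i a| ≤ 1)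
    (h0 : ∀ γ, Ex (fun s => Y j (γ, s)) = 0) :
    |Ex fun ω : Fin 4 → Samp M U D A B => ∏ i, Y i (agt Γ ω i)| ≤
      3 * ((M + 1) * √δ * √(M + 1)) := by
  rw [← Ex_update j]
  refine (abs_Ex_le _).trans (Ex_le_const (by positivity) fun ω => ?_)
  refine le_of_eq_of_le (congrArg _ (Ex_congr fun ω' => ?_)) (one_inst hδ hΓ j
    (YA := fun p c => Y j ((p, fun k => pB Γ (j.succAbove k) (ω (j.succAbove k)) j),
      c + ∑ k, cc (ω (j.succAbove k)).2 j)) (fun _ _ => hY _ _)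
    (fun p => (Ex_add_right (fun s => Y j (_, s)) _).trans (h0 _))
    (YB := fun k p c => Y (j.succAbove k) ((pA (ω (j.succAbove k)) (j.succAbove k), fun k' =>
      if (j.succAbove k).succAbove k' = j then p else pB Γ ((j.succAbove k).succAbove k')
        (ω ((j.succAbove k).succAbove k')) (j.succAbove k)),
      c + ∑ k', cc (ω (j.succAbove k')).2 (j.succAbove k))) fun _ _ _ => hY _ _)
  rw [Fin.prod_univ_succAbove _ j]
  simp only [agt, Fin.sum_univ_succAbove _ j, Function.update_self,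
    Function.update_of_ne (Fin.succAbove_ne _ _)]
  congr 1
  refine prod_congr rfl fun k _ => ?_
  congr 3
  funext k'
  split_ifs with h
  · rw [h, Function.update_self]
  · rw [Function.update_of_ne h]

theorem cover {δ : ℝ} (hδ : 0 ≤ δ) (hΓ : Γ.Coll (δ ^ 2)) (ℓ : Gad U V A B → K) :
    pr (fun ω : Fin 4 → Samp M U D A B => ∃ i, (agt Γ ω i).2 = ℓ (agt Γ ω i).1) ≤
      65 / 81 + 12 * ((M + 1) * √δ * √(M + 1)) := by
  let L (a : Gad U V A B × K) : ℝ := 1 - ind (a.2 = ℓ a.1)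
  let Y (a : Gad U V A B × K) : ℝ := L a - 2 / 3
  let c (_ : Gad U V A B × K) : ℝ := 2 / 3
  have hL : ∀ a, |L a| ≤ 1 := fun a => abs_le.2
    ⟨by simp only [L]; linarith [ind_le_one (a.2 = ℓ a.1)],
      by simp only [L]; linarith [ind_nonneg (a.2 = ℓ a.1)]⟩
  have hY : ∀ a, |Y a| ≤ 1 := fun a => abs_le.2
    ⟨by simp only [Y, L]; linarith [ind_le_one (a.2 = ℓ a.1)],
      by simp only [Y, L]; linarith [ind_nonneg (a.2 = ℓ a.1)]⟩
  have hc : ∀ a, |c a| ≤ 1 := fun a => by simp only [c]; rw [abs_of_pos] <;> norm_num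
  have h0 : ∀ γ, Ex (fun s => Y (γ, s)) = 0 := fun γ => by
    simp only [Y, L, Ex_sub, Ex_const, eq_comm (b := ℓ γ)]
    rw [Ex, sum_ind_eq_one]; norm_num
  have s0 := sound (M := M) hδ hΓ 0 (Y := ![Y, L, L, L]) (by simp [Fin.forall_fin_succ, *]) h0
  have s1 := sound (M := M) hδ hΓ 1 (Y := ![c, Y, L, L]) (by simp [Fin.forall_fin_succ, *]) h0
  have s2 := sound (M := M) hδ hΓ 2 (Y := ![c, c, Y, L]) (by simp [Fin.forall_fin_succ, *]) h0
  have s3 := sound (M := M) hδ hΓ 3 (Y := ![c, c, c, Y]) (by simp [Fin.forall_fin_succ, *]) h0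
  simp only [Fin.prod_univ_four, Matrix.cons_val] at s0 s1 s2 s3
  have e : ∀ ω : Fin 4 → Samp M U D A B, ind (∃ i, (agt Γ ω i).2 = ℓ (agt Γ ω i).1) = 65 / 81 -
      Y (agt Γ ω 0) * L (agt Γ ω 1) * L (agt Γ ω 2) * L (agt Γ ω 3) -
      c (agt Γ ω 0) * Y (agt Γ ω 1) * L (agt Γ ω 2) * L (agt Γ ω 3) -
      c (agt Γ ω 0) * c (agt Γ ω 1) * Y (agt Γ ω 2) * L (agt Γ ω 3) -
      c (agt Γ ω 0) * c (agt Γ ω 1) * c (agt Γ ω 2) * Y (agt Γ ω 3) := fun ω => by
    have : ind (∃ i, (agt Γ ω i).2 = ℓ (agt Γ ω i).1) =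
        1 - L (agt Γ ω 0) * L (agt Γ ω 1) * L (agt Γ ω 2) * L (agt Γ ω 3) := by
      simp only [L, ← ind_not, ← ind_and]
      exact ind_congr (by simp [Fin.exists_fin_succ]; tauto)
    rw [this]; simp only [Y, c]; ring
  simp only [pr, e, Ex_sub, Ex_const]
  have : ∀ a b c d κ : ℝ, |a| ≤ 3 * κ → |b| ≤ 3 * κ → |c| ≤ 3 * κ → |d| ≤ 3 * κ →
      65 / 81 - a - b - c - d ≤ 65 / 81 + 12 * κ := fun a b c d κ s0 s1 s2 s3 => by
    linarith [(abs_le.1 s0).1, (abs_le.1 s1).1, (abs_le.1 s2).1, (abs_le.1 s3).1]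
  exact this _ _ _ _ _ s0 s1 s2 s3

end Pool.Agent.Lib.MP_778288_lc
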