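import Pool.Agent.Lib.MP_778288_lc.Infl
import Pool.Agent.Shared.PCP.Repeat

/-!
A correlation bound for four functions queried at pairwise independent points.
-/

set_option linter.unusedSectionVars false

noncomputable section

namespace Pool.Agent.Lib.MP_778288_lc

open Finset Pool.Agent.Shared.PCP

/-- The field with three elements. -/
abbrev K := ZMod 3

variable {A B : Type} [Fintype A] [DecidableEq A] [Fintype B] [DecidableEq B]

/-- A query point on the side of the large labels. -/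
def af (π : B → A) (a b : K) (x : A → K) (t : B → K) (r : B) : K := a * x (π r) + b * t r

theorem af_bij (π : B → A) (a : K) {b : K} (hb : b ≠ 0) (x : A → K) :
    Function.Bijective (af π a b x) := by
  refine Finite.injective_iff_bijective.1 fun t t' h => funext fun r => ?_
  have h1 := congrFun h r
  simp only [af, add_right_inj] at h1
  have : Fact (Nat.Prime 3) := ⟨Nat.prime_three⟩
  exact mul_left_cancel₀ hb h1

theorem Es_af (π : B → A) (a : K) {b : K} (hb : b ≠ 0) (x : A → K) (S : Finset B)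
    (g : (B → K) → ℝ) (t : B → K) :
    Es S (fun t => g (af π a b x t)) t = Es S g (af π a b x t) := by
  unfold Es
  rw [← Ex_bij (af_bij π a hb x) (fun t' => g (S.piecewise t' (af π a b x t)))]
  refine Ex_congr fun t' => congrArg g (funext fun r => ?_)
  by_cases h : r ∈ S <;> simp [af, h]

theorem z1 (π : B → A) (a : K) {b : K} (hb : b ≠ 0) (S : Finset B) (φ : (A → K) → ℝ)
    (g : (B → K) → ℝ) {R : (A → K) → (B → K) → ℝ} (hR : ∀ x t z, R x (S.piecewise t z) = R x z) :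
    Ex (fun x => Ex fun t => φ x * (R x t * (g (af π a b x t) - Es S g (af π a b x t)))) = 0 := by
  refine (Ex_congr fun x => ?_).trans Ex_zero
  rw [Ex_mul_left, Ex_mul_Es S _ (hR x)]
  simp only [Es_af π a hb x S (fun z => g z - Es S g z), Es_sub, Es_Es, union_self, sub_self,
    mul_zero, Ex_zero]

theorem z2 (π : B → A) (a a' : K) {b b' : K} (hb : b ≠ 0) (hb' : b' ≠ 0) (φ : (A → K) → ℝ)
    (Q Q' : (B → K) → ℝ) {R : (A → K) → (B → K) → ℝ} (hR : ∀ x t, |R x t| ≤ 1) :
    |Ex fun x => Ex fun t => φ x * (Q (af π a b x t) * Q' (af π a' b' x t) * R x t)| ≤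
      √(n2 φ) * (√(n2 Q) * √(n2 Q')) := by
  have h := Ex_cs_sqrt (fun z : (A → K) × (B → K) => φ z.1 * Q (af π a b z.1 z.2))
    (fun z => Q' (af π a' b' z.1 z.2) * R z.1 z.2)
  have e1 : Ex (fun z : (A → K) × (B → K) => (φ z.1 * Q (af π a b z.1 z.2)) ^ 2) = n2 φ * n2 Q := by
    rw [Ex_prod]
    simp only [mul_pow, Ex_mul_left, Ex_bij (af_bij π a hb _) (fun z => Q z ^ 2), Ex_mul_right, n2]
  have e2 : Ex (fun z : (A → K) × (B → K) => (Q' (af π a' b' z.1 z.2) * R z.1 z.2) ^ 2) ≤ n2 Q' := by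
    refine (Ex_mono (g := fun z : (A → K) × (B → K) => Q' (af π a' b' z.1 z.2) ^ 2)
      fun z => ?_).trans_eq ?_
    · rw [mul_pow]
      refine mul_le_of_le_one_right (sq_nonneg _) ?_
      rw [← sq_abs]; nlinarith [abs_nonneg (R z.1 z.2), hR z.1 z.2]
    · rw [Ex_prod]
      simp only [Ex_bij (af_bij π a' hb' _) (fun z => Q' z ^ 2), Ex_const, n2]
  rw [e1, Ex_prod, Real.sqrt_mul (n2_nonneg _), mul_assoc] at h
  simp only [mul_assoc] at h ⊢
  refine h.trans ?_
  gcongr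

theorem step (π : B → A) (l : A) {φ : (A → K) → ℝ} (hφ : ∀ x, Es {l} φ x = 0) (a : Fin 3 → K)
    {b : Fin 3 → K} (hb : ∀ i, b i ≠ 0) {G : Fin 3 → (B → K) → ℝ} (hG : ∀ i z, |G i z| ≤ 1) :
    |Ex fun x => Ex fun t => φ x * ∏ i, G i (af π (a i) (b i) x t)| ≤
      √(n2 φ) * (√(Inf {r | π r = l} (G 0)) * √(Inf {r | π r = l} (G 1)) +
        √(Inf {r | π r = l} (G 0)) * √(Inf {r | π r = l} (G 2)) +
        √(Inf {r | π r = l} (G 1)) * √(Inf {r | π r = l} (G 2))) := by
  set S : Finset B := {r | π r = l} with hS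
  let P (i) x t := Es S (G i) (af π (a i) (b i) x t)
  let Q (i) z := G i z - Es S (G i) z
  have hP : ∀ i x t z, P i x (S.piecewise t z) = P i x z := fun i x t z =>
    Es_congr _ _ fun r hr => by simp [af, hr]
  have h0 : Ex (fun x => Ex fun t => φ x * (P 0 x t * P 1 x t * P 2 x t)) = 0 := by
    rw [Ex_comm]
    refine (Ex_congr fun t => ?_).trans Ex_zero
    simp only [mul_comm (φ _)]
    rw [Ex_mul_Es {l} φ]
    · simp only [hφ, mul_zero, Ex_zero]
    · intro x z
      have : ∀ i, P i (({l} : Finset A).piecewise x z) t = P i z t := fun i =>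
        Es_congr _ _ fun r hr => by
          have : π r ≠ l := by simpa [hS] using hr
          simp [af, this]
      simp only [this]
  have h1 := z1 π (a 0) (hb 0) S φ (G 0) (R := fun x t => P 1 x t * P 2 x t) (by simp [hP])
  have h2 := z1 π (a 1) (hb 1) S φ (G 1) (R := fun x t => P 0 x t * P 2 x t) (by simp [hP])
  have h3 := z1 π (a 2) (hb 2) S φ (G 2) (R := fun x t => P 0 x t * P 1 x t) (by simp [hP])
  have h4 := z2 π (a 0) (a 1) (hb 0) (hb 1) φ (Q 0) (Q 1)
    (R := fun x t => G 2 (af π (a 2) (b 2) x t)) fun _ _ => hG _ _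
  have h5 := z2 π (a 0) (a 2) (hb 0) (hb 2) φ (Q 0) (Q 2) (R := P 1) fun _ _ => abs_Es_le (hG _) _
  have h6 := z2 π (a 1) (a 2) (hb 1) (hb 2) φ (Q 1) (Q 2) (R := P 0) fun _ _ => abs_Es_le (hG _) _
  have e : ∀ f g0 g1 g2 p0 p1 p2 : ℝ, f * (g0 * g1 * g2) = f * (p0 * p1 * p2) +
      f * (p1 * p2 * (g0 - p0)) + f * (p0 * p2 * (g1 - p1)) + f * (p0 * p1 * (g2 - p2)) +
      f * ((g0 - p0) * (g1 - p1) * g2) + f * ((g0 - p0) * (g2 - p2) * p1) +
      f * ((g1 - p1) * (g2 - p2) * p0) := fun _ _ _ _ _ _ _ => by ring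
  have e' : ∀ x t, φ x * ∏ i, G i (af π (a i) (b i) x t) = _ := fun x t => by
    rw [Fin.prod_univ_three, e _ _ _ _ (P 0 x t) (P 1 x t) (P 2 x t)]
  simp only [e', Ex_add]
  rw [h0, h1, h2, h3]
  simp only [zero_add, mul_add]
  exact (abs_add_three _ _ _).trans (add_le_add (add_le_add h4 h5) h6)

theorem hybrid (π : B → A) {F : (A → K) → ℝ} (hF : Ex F = 0) (a : Fin 3 → K)
    {b : Fin 3 → K} (hb : ∀ i, b i ≠ 0) {G : Fin 3 → (B → K) → ℝ} (hG : ∀ i z, |G i z| ≤ 1) :
    |Ex fun x => Ex fun t => F x * ∏ i, G i (af π (a i) (b i) x t)| ≤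
      ∑ l, √(Inf {l} F) * (√(Inf {r | π r = l} (G 0)) * √(Inf {r | π r = l} (G 1)) +
        √(Inf {r | π r = l} (G 0)) * √(Inf {r | π r = l} (G 2)) +
        √(Inf {r | π r = l} (G 1)) * √(Inf {r | π r = l} (G 2))) := by
  have key : ∀ s : Finset A,
      |Ex fun x => Ex fun t => (F x - Es s F x) * ∏ i, G i (af π (a i) (b i) x t)| ≤
      ∑ l ∈ s, √(Inf {l} F) * (√(Inf {r | π r = l} (G 0)) * √(Inf {r | π r = l} (G 1)) +
        √(Inf {r | π r = l} (G 0)) * √(Inf {r | π r = l} (G 2)) +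
        √(Inf {r | π r = l} (G 1)) * √(Inf {r | π r = l} (G 2))) := by
    intro s
    induction s using Finset.induction_on with
    | empty => simp [Es_empty, Ex_zero]
    | insert l s hl ih =>
      have h := step π l (φ := fun x => Es s F x - Es {l} (Es s F) x)
        (fun x => by rw [Es_sub, Es_Es {l} {l}, union_self, sub_self]) a hb hG
      have e : ∀ x, F x - Es (insert l s) F x =
          (Es s F x - Es {l} (Es s F) x) + (F x - Es s F x) := fun x => by
        rw [Es_Es, ← insert_eq]; ring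
      simp only [e, add_mul, Ex_add]
      rw [sum_insert hl]
      refine (abs_add_le _ _).trans (add_le_add (h.trans ?_) ih)
      gcongr
      exact Inf_Es_le {l} s F
  simpa only [Es_univ, hF, sub_zero] using key univ

theorem pair_le (π : B → A) (F : (A → K) → ℝ) (G G' : (B → K) → ℝ) {C : ℝ}
    (h : ∑ r, Inf {r} G' ≤ C) :
    ∑ l, √(Inf {l} F) * (√(Inf {r | π r = l} G) * √(Inf {r | π r = l} G')) ≤
      √(∑ r, Inf {π r} F * Inf {r} G) * √C := by
  simp only [← mul_assoc]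
  refine (Real.sum_mul_le_sqrt_mul_sqrt _ _ _).trans ?_
  simp only [mul_pow, Real.sq_sqrt (Inf_nonneg _ _)]
  gcongr
  · rw [← sum_fiberwise univ π]
    refine sum_le_sum fun l _ => ?_
    refine (mul_le_mul_of_nonneg_left (Inf_le_sum _ _) (Inf_nonneg _ _)).trans_eq ?_
    rw [mul_sum]
    exact sum_congr rfl fun r hr => by rw [(mem_filter.1 hr).2]
  · refine le_trans ?_ h
    rw [← sum_fiberwise univ π]
    exact sum_le_sum fun l _ => Inf_le_sum _ _

variable {U D V : Type} [Fintype U] [Fintype D] [Fintype V]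

theorem game_bound {Γ : Game U D V A B} {δ C : ℝ} (hδ : 0 ≤ δ) (hC : 0 < C) (hΓ : Γ.Coll (δ ^ 2))
    {F : U → (A → K) → ℝ} (hF : ∀ u, Ex (F u) = 0) (hF' : ∀ u, ∑ l, Inf {l} (F u) ≤ C)
    (a : Fin 3 → K) {b : Fin 3 → K} (hb : ∀ i, b i ≠ 0) {G : Fin 3 → V → (B → K) → ℝ}
    (hG : ∀ i v z, |G i v z| ≤ 1) (hG' : ∀ i v, ∑ r, Inf {r} (G i v) ≤ C) :
    |Ex fun u => Ex fun d => Ex fun x => Ex fun t =>
      F u x * ∏ i, G i (Γ.nb u d) (af (Γ.pj u d) (a i) (b i) x t)| ≤ 3 * (C * √δ * √C) := by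
  have h : ∀ i, Ex (fun u => Ex fun d =>
      √(∑ r, Inf {Γ.pj u d r} (F u) * Inf {r} (G i (Γ.nb u d))) * √C) ≤ C * √δ * √C := by
    intro i
    have h1 := Game.value_le hδ hΓ (p := fun u l => Inf {l} (F u) / C)
      (q := fun v r => Inf {r} (G i v) / C) (fun _ _ => div_nonneg (Inf_nonneg _ _) hC.le)
      (fun u => by rw [← sum_div, div_le_one hC]; exact hF' u)
      (fun _ _ => div_nonneg (Inf_nonneg _ _) hC.le)
      (fun v => by rw [← sum_div, div_le_one hC]; exact hG' i v)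
    simp only [div_mul_div_comm, ← sum_div, Ex_div] at h1
    rw [div_le_iff₀ (by positivity)] at h1
    have h2 : ∀ u d, 0 ≤ ∑ r, Inf {Γ.pj u d r} (F u) * Inf {r} (G i (Γ.nb u d)) := fun u d =>
      sum_nonneg fun _ _ => mul_nonneg (Inf_nonneg _ _) (Inf_nonneg _ _)
    simp only [Ex_mul_right]
    refine mul_le_mul_of_nonneg_right ?_ (Real.sqrt_nonneg _)
    refine (Ex_mono fun u => Ex_sqrt_le (h2 u)).trans
      ((Ex_sqrt_le fun u => Ex_nonneg (h2 u)).trans ((Real.sqrt_le_sqrt h1).trans_eq ?_))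
    rw [Real.sqrt_mul hδ, Real.sqrt_mul_self hC.le, mul_comm]
  have h3 := fun u d => (hybrid (Γ.pj u d) (hF u) a hb (G := fun i => G i (Γ.nb u d))
    fun i => hG i _).trans (((sum_congr rfl fun _ _ => by rw [mul_add, mul_add]).trans
      (by rw [sum_add_distrib, sum_add_distrib])).trans_le (add_le_add (add_le_add
        (pair_le _ _ _ _ (hG' 1 _)) (pair_le _ _ _ _ (hG' 2 _))) (pair_le _ _ _ _ (hG' 2 _))))
  refine (abs_Ex_le _).trans ((Ex_mono fun u => (abs_Ex_le _).trans (Ex_mono (h3 u))).trans ?_)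
  simp only [Ex_add]
  linarith [h 0, h 1]

end Pool.Agent.Lib.MP_778288_lc
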