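import Pool.Agent.Shared.PCP.Prob

/-!
Averaging over sets of coordinates, influences and noise.
-/

set_option linter.unusedSectionVars false

noncomputable section

namespace Pool.Agent.Lib.MP_778288_lc

open Finset Pool.Agent.Shared.PCP

variable {ι K : Type} [Fintype ι] [DecidableEq ι] [Fintype K] [Nonempty K]

/-- Averaging over the coordinates in `s`. -/
def Es (s : Finset ι) (g : (ι → K) → ℝ) (z : ι → K) : ℝ := Ex fun t => g (s.piecewise t z)

/-- The squared norm. -/
def n2 (g : (ι → K) → ℝ) : ℝ := Ex fun z => g z ^ 2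

/-- The influence of a set of coordinates. -/
def Inf (s : Finset ι) (g : (ι → K) → ℝ) : ℝ := n2 fun z => g z - Es s g z

theorem n2_nonneg (g : (ι → K) → ℝ) : 0 ≤ n2 g := Ex_nonneg fun _ => sq_nonneg _
theorem Inf_nonneg (s : Finset ι) (g : (ι → K) → ℝ) : 0 ≤ Inf s g := n2_nonneg _

theorem resample (s : Finset ι) (g : (ι → K) → ℝ) : Ex (Es s g) = Ex g := by
  let e : (ι → K) × (ι → K) ≃ (ι → K) × (ι → K) :=
    Function.Involutive.toPerm (fun z => (s.piecewise z.2 z.1, s.piecewise z.1 z.2)) fun z => by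
      refine Prod.ext (funext fun i => ?_) (funext fun i => ?_) <;> by_cases h : i ∈ s <;> simp [h]
  exact (Ex_prod (fun z : (ι → K) × (ι → K) => g (s.piecewise z.2 z.1))).symm.trans
    ((Ex_equiv e (fun z => g z.1)).trans (Ex_fst g))

theorem Es_congr (s : Finset ι) (g : (ι → K) → ℝ) {z y : ι → K} (h : ∀ i ∉ s, z i = y i) :
    Es s g z = Es s g y := Ex_congr fun t => by
  congr 1; funext i; by_cases hi : i ∈ s <;> simp [hi, h]

theorem Es_pw (s : Finset ι) (g : (ι → K) → ℝ) (t z : ι → K) :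
    Es s g (s.piecewise t z) = Es s g z := Es_congr s g fun i hi => by simp [hi]

theorem Es_Es (s s' : Finset ι) (g : (ι → K) → ℝ) : Es s (Es s' g) = Es (s ∪ s') g := by
  funext z
  unfold Es
  rw [← resample s' (fun t => g ((s ∪ s').piecewise t z))]
  refine Ex_congr fun t => Ex_congr fun t' => ?_
  congr 1; funext i
  by_cases h : i ∈ s <;> by_cases h' : i ∈ s' <;> simp [h, h']

theorem Es_comm (s s' : Finset ι) (g : (ι → K) → ℝ) : Es s (Es s' g) = Es s' (Es s g) := by
  rw [Es_Es, Es_Es, union_comm]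

theorem Es_sub (s : Finset ι) (f g : (ι → K) → ℝ) (z : ι → K) :
    Es s (fun z => f z - g z) z = Es s f z - Es s g z := Ex_sub _ _

theorem Es_empty (g : (ι → K) → ℝ) : Es ∅ g = g := by
  funext z; simp [Es, Ex_const]

theorem Es_univ (g : (ι → K) → ℝ) (z : ι → K) : Es univ g z = Ex g := by simp [Es]

theorem abs_Es_le {s : Finset ι} {g : (ι → K) → ℝ} (h : ∀ z, |g z| ≤ 1) (z : ι → K) :
    |Es s g z| ≤ 1 := (abs_Ex_le _).trans (Ex_le_const zero_le_one fun _ => h _)

theorem Ex_mul_Es (s : Finset ι) {f : (ι → K) → ℝ} (g : (ι → K) → ℝ)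
    (hf : ∀ t z, f (s.piecewise t z) = f z) :
    Ex (fun z => f z * g z) = Ex fun z => f z * Es s g z := by
  rw [← resample s]
  refine Ex_congr fun z => ?_
  simp only [Es, hf, Ex_mul_left]

theorem n2_Es_le (s : Finset ι) (g : (ι → K) → ℝ) : n2 (Es s g) ≤ n2 g :=
  (Ex_mono fun _ => Ex_sq_le _).trans_eq (resample s fun z => g z ^ 2)

theorem n2_comb (s : Finset ι) (g : (ι → K) → ℝ) (ρ : ℝ) :
    n2 (fun z => Es s g z + ρ * (g z - Es s g z)) = n2 (Es s g) + ρ ^ 2 * Inf s g := by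
  have h := Ex_mul_Es s (fun z => g z - Es s g z) (Es_pw s g)
  simp only [Es_sub, Es_Es, union_self, sub_self, mul_zero, Ex_zero] at h
  have : ∀ a b : ℝ, (a + ρ * b) ^ 2 = a ^ 2 + 2 * ρ * (a * b) + ρ ^ 2 * b ^ 2 := fun a b => by ring
  simp only [n2, Inf, this, Ex_add, Ex_mul_left, h]; ring

theorem Inf_eq (s : Finset ι) (g : (ι → K) → ℝ) : Inf s g = n2 g - n2 (Es s g) := by
  have := n2_comb s g 1
  simp only [one_mul, add_sub_cancel, one_pow] at this
  linarith

theorem Inf_Es_le (s s' : Finset ι) (g : (ι → K) → ℝ) : Inf s (Es s' g) ≤ Inf s g := by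
  refine le_of_eq_of_le ?_ (n2_Es_le s' fun z => g z - Es s g z)
  unfold Inf
  congr 1; funext z
  rw [Es_sub, Es_comm]

theorem Inf_le_sum (s : Finset ι) (g : (ι → K) → ℝ) : Inf s g ≤ ∑ r ∈ s, Inf {r} g := by
  induction s using Finset.induction_on with
  | empty => simp [Inf_eq, Es_empty]
  | insert r s hr ih =>
    have h1 := Inf_Es_le {r} s g
    rw [Inf_eq, Es_Es, ← insert_eq] at h1
    rw [sum_insert hr, Inf_eq]
    rw [Inf_eq] at ih
    linarith

/-- Resampling the coordinates whose flag is zero. -/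
def nz {M : ℕ} (z : ι → K) (n : (ι → Fin (M + 1)) × (ι → K)) (r : ι) : K :=
  if n.1 r = 0 then n.2 r else z r

/-- The noise operator. -/
def Tn (M : ℕ) (g : (ι → K) → ℝ) (z : ι → K) : ℝ :=
  Ex fun n : (ι → Fin (M + 1)) × (ι → K) => g (nz z n)

/-- The noise operator on a set of coordinates. -/
def Ts (M : ℕ) (s : Finset ι) (g : (ι → K) → ℝ) (z : ι → K) : ℝ :=
  Ex fun fl : ι → Fin (M + 1) => Es (s.filter fun r => fl r = 0) g z

theorem Tn_eq (M : ℕ) (g : (ι → K) → ℝ) : Tn M g = Ts M univ g := by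
  funext z
  rw [Tn, Ex_prod]
  refine Ex_congr fun fl => Ex_congr fun t => ?_
  congr 1; funext r
  by_cases h : fl r = 0 <;> simp [nz, h]

theorem Ex_Tn (M : ℕ) (g : (ι → K) → ℝ) : Ex (Tn M g) = Ex g := by
  rw [Tn_eq]
  unfold Ts
  rw [Ex_comm]
  simp only [resample, Ex_const]

theorem abs_Tn_le {M : ℕ} {g : (ι → K) → ℝ} (h : ∀ z, |g z| ≤ 1) (z : ι → K) :
    |Tn M g z| ≤ 1 := (abs_Ex_le _).trans (Ex_le_const zero_le_one fun _ => h _)

theorem Ts_insert (M : ℕ) {s : Finset ι} {r : ι} (hr : r ∉ s) (g : (ι → K) → ℝ) :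
    Ts M (insert r s) g = fun z => Es {r} (Ts M s g) z +
      (M / (M + 1)) * (Ts M s g z - Es {r} (Ts M s g) z) := by
  funext z
  have e : Es {r} (Ts M s g) z = Ex fun fl : ι → Fin (M + 1) =>
      Es {r} (Es (s.filter fun r => fl r = 0) g) z := Ex_comm _
  rw [e, Ts, Ts, ← Ex_sub, ← Ex_mul_left, ← Ex_add, ← Ex_update r]
  refine Ex_congr fun fl => ?_
  have h : ∀ a, ((insert r s).filter fun i => Function.update fl r a i = 0) =
      if a = 0 then {r} ∪ s.filter fun i => fl i = 0 else s.filter fun i => fl i = 0 := by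
    intro a
    ext i
    by_cases hi : i = r
    · subst hi; split_ifs with ha <;> simp [ha, hr]
    · split_ifs with ha <;> simp [hi]
  simp only [h, Es_Es, Ex, Fin.sum_univ_succ, if_true, Fin.succ_ne_zero, if_false, sum_const,
    card_univ, Fintype.card_fin, nsmul_eq_mul, Nat.cast_add, Nat.cast_one]
  field_simp; ring

theorem total_Ts (M : ℕ) (s : Finset ι) (g : (ι → K) → ℝ) :
    ∑ r ∈ s, Inf {r} (Ts M s g) ≤ (M + 1) * (n2 g - n2 (Ts M s g)) := by
  induction s using Finset.induction_on with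
  | empty =>
    have : Ts M ∅ g = g := by funext z; simp [Ts, Es_empty, Ex_const]
    simp [this]
  | insert r s hr ih =>
    rw [sum_insert hr, Ts_insert M hr]
    set h := Ts M s g
    set ρ : ℝ := M / (M + 1) with hρ
    have ρ0 : 0 ≤ ρ := by positivity
    have ρ1 : (M + 1) * (1 - ρ) = 1 := by rw [hρ]; field_simp; ring
    have ρ2 : ρ ≤ 1 := by rw [hρ, div_le_one (by positivity)]; linarith
    have h1 : ∀ s' : Finset ι, Inf s' (fun z => Es {r} h z + ρ * (h z - Es {r} h z)) ≤ Inf s' h := by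
      intro s'
      have a := n2_comb {r} (fun z => h z - Es s' h z) ρ
      have b := Inf_eq {r} (fun z => h z - Es s' h z)
      have c := Inf_nonneg {r} (fun z => h z - Es s' h z)
      have d : Inf s' (fun z => Es {r} h z + ρ * (h z - Es {r} h z)) =
          n2 fun z => Es {r} (fun z => h z - Es s' h z) z + ρ * ((h z - Es s' h z) -
            Es {r} (fun z => h z - Es s' h z) z) := by
        unfold Inf
        congr 1; funext z
        have : Es s' (fun z => Es {r} h z + ρ * (h z - Es {r} h z)) z =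
            Es s' (Es {r} h) z + ρ * (Es s' h z - Es s' (Es {r} h) z) := by
          simp only [Es, Ex_add, Ex_mul_left, Ex_sub]
        rw [this, Es_sub, Es_comm]; ring
      rw [d, a]
      change _ ≤ n2 _
      nlinarith [mul_le_mul_of_nonneg_right (show ρ ^ 2 ≤ 1 by nlinarith) c]
    have h2 := n2_comb {r} h ρ
    have h3 := Inf_eq {r} h
    have h4 := Inf_nonneg {r} h
    have h5 := sum_le_sum fun r' (_ : r' ∈ s) => h1 {r'}
    have h6 := h1 {r}
    rw [h2]
    have h7 : (M + 1 : ℝ) * (1 - ρ ^ 2) = 1 + ρ := by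
      rw [show 1 - ρ ^ 2 = (1 - ρ) * (1 + ρ) by ring, ← mul_assoc, ρ1, one_mul]
    have h8 : (M + 1 : ℝ) * (n2 g - (n2 (Es {r} h) + ρ ^ 2 * Inf {r} h)) =
        (M + 1) * (n2 g - n2 h) + (1 + ρ) * Inf {r} h := by
      rw [← h7, show n2 (Es {r} h) = n2 h - Inf {r} h by linarith]; ring
    rw [h8]
    nlinarith [mul_nonneg ρ0 h4]

theorem total_Tn (M : ℕ) {g : (ι → K) → ℝ} (h : ∀ z, |g z| ≤ 1) :
    ∑ r, Inf {r} (Tn M g) ≤ M + 1 := by
  rw [Tn_eq]
  refine (total_Ts M univ g).trans (mul_le_of_le_one_right (by positivity) ?_)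
  have : n2 g ≤ 1 := Ex_le_const zero_le_one fun z => by
    have := h z; rw [← sq_abs]; nlinarith [abs_nonneg (g z)]
  linarith [n2_nonneg (Ts M univ g)]

end Pool.Agent.Lib.MP_778288_lc
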