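import Pool.Agent.Lib.MP_778288_lc.Bridge
import Pool.Agent.Shared.PCP.Cover

/-!
The reduction from label cover to maximum Nash welfare.
-/

set_option synthInstance.maxSize 4000

noncomputable section

namespace Pool.Agent.Lib.MP_778288_lc

open Finset Pool.Agent.Shared.PCP Pool.Agent.Shared.PolyTime

section
variable {U U' D V V' A B : Type} {M : ℕ} {Γ : Game U D V A B} {Γ' : Game U' D V' A B}
  {eU : U' → U} {eV : V' → V}

/-- Renaming of gadgets. -/
abbrev eG (eU : U' → U) (eV : V' → V) : Gad U' V' A B → Gad U V A B :=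
  Prod.map (Prod.map eU id) fun t k => Prod.map eV id (t k)

/-- Renaming of small items. -/
abbrev eI (eU : U' → U) : Item M U' D A B → Item M U D A B :=
  Prod.map (fun t j => Prod.map (Prod.map eU id) id (t j)) id

theorem vl_map (hU : Function.Injective eU) (hV : Function.Injective eV)
    (h1 : ∀ u d, Γ.nb (eU u) d = eV (Γ'.nb u d)) (h2 : ∀ u d, Γ.pj (eU u) d = Γ'.pj u d) (H : ℕ)
    (a : Gad U' V' A B × K) (g : Gad U' V' A B × Bool ⊕ Item M U' D A B) :
    vl (wants Γ) H (Prod.map (eG eU eV) id a) (Sum.map (Prod.map (eG eU eV) id) (eI eU) g) =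
      vl (wants Γ') H a g := by
  have hG : Function.Injective (eG (A := A) (B := B) eU eV) :=
    (hU.prodMap Function.injective_id).prodMap fun _ _ h => funext fun k =>
      hV.prodMap Function.injective_id (congrFun h k)
  rcases g with g | g
  · exact congrArg (fun p => @ite ℕ p (Classical.propDecidable p) H 0) (propext hG.eq_iff)
  · have : ∀ i, agt Γ (eI eU g).1 i = Prod.map (eG eU eV) id (agt Γ' g.1 i) := fun i => by
      simp [agt, pA, pB, h1, h2]
    exact congrArg (fun p => @ite ℕ p (Classical.propDecidable p) 1 0) (propext (exists_congr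
      fun i => by rw [this, (hG.prodMap Function.injective_id).eq_iff]))

variable {α : Type} [N487b59b3 α] [N487b59b3 U] [N487b59b3 D] [N487b59b3 V] [N487b59b3 A]
  [Fintype A] [Fintype B]

theorem agt_pt {Γ : α → Game U D V A B} (h1 : PT fun p : α × U × D => (Γ p.1).nb p.2.1 p.2.2)
    (h2 : PT fun p : α × U × D => (Γ p.1).pj p.2.1 p.2.2) {β : Type} [N487b59b3 β] {a : β → α}
    {ω : β → Fin 4 → Samp M U D A B} (ha : PT a) (hω : PT ω) (i : Fin 4) :
    PT fun p => agt (Γ (a p)) (ω p) i := by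
  have h := PT.apply hω
  unfold agt pA pB
  refine PT.pair (PT.pair (PT.pair (h i).fst.fst ?_) (PT.pi fun k => PT.pair ?_ ?_)) ?_
  · exact (PT.ofFinite (fun ρ : Rest M A B => qA ρ i) (h i).snd :)
  · exact (h1.comp' (ha.pair (h (i.succAbove k)).fst) :)
  · exact (PT.ofFinite (fun z : (B → A) × Rest M A B => qB z.1 (i.succAbove k) z.2 i)
      ((h2.comp' (ha.pair (h (i.succAbove k)).fst) :).pair (h (i.succAbove k)).snd) :)
  · exact (PT.ofFinite (fun z : Fin 4 → Rest M A B => ∑ j, cc (z j) i) (PT.pi fun j => (h j).snd) :)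

end

/-- The game on numbers. -/
def baseN (φ : Inst) : Game ℕ (DD × Bool) (ℕ × DD) AA (AA × AA) where
  nb u e := (tl φ u e, e.1)
  pj := pjN φ

variable (k M C : ℕ)

/-- The list of gadgets. -/
def LG (φ : Inst) : List (Gad (Fin k → ℕ) (Fin k → ℕ × DD) (Fin k → AA) (Fin k → AA × AA)) :=
  ((tuples k (List.range (NN φ))).product univ.toList).product
    (tuples 3 ((tuples k ((List.range (NN φ)).product univ.toList)).product univ.toList))

/-- The list of small items. -/
def LS (φ : Inst) : List (Item M (Fin k → ℕ) (Fin k → DD × Bool) (Fin k → AA) (Fin k → AA × AA)) :=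
  (tuples 4 (((tuples k (List.range (NN φ))).product univ.toList).product univ.toList)).product
    univ.toList

/-- The value of the huge items. -/
def HH (φ : Inst) : ℕ := (C + 1) * (LS k M φ).length * (LG k φ).length

/-- The matrix of values. -/
def mat (φ : Inst) : List (List ℕ) :=
  ((LG k φ).product univ.toList).map fun a =>
    (((LG k φ).product univ.toList).map Sum.inl ++ (LS k M φ).map Sum.inr).map
      (vl (wants ((baseN φ).rep k)) (HH k M C φ) a)

theorem LG_enum (φ : Inst) : Enum (LG k φ) (eG (fun (t : Fin k → Fin (NN φ)) i => (t i).val)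
    fun (t : Fin k → Fin (NN φ) × DD) i => Prod.map Fin.val id (t i)) :=
  (((Enum.range _).tup k).prod Enum.fin).prod
    (((((Enum.range _).prod Enum.fin).tup k).prod Enum.fin).tup 3)

theorem LS_enum (φ : Inst) : Enum (LS k M φ) (eI fun (t : Fin k → Fin (NN φ)) i => (t i).val) :=
  (((((Enum.range _).tup k).prod Enum.fin).prod Enum.fin).tup 4).prod Enum.fin

theorem LG_pt : PT (LG k) := by
  have h : PT fun φ => List.range (NN φ) := PT.range (NN_pt PT.id') (NN_pb PT.id')
  exact ((tuples_pt k h).product (PT.const _)).product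
    (tuples_pt 3 ((tuples_pt k (h.product (PT.const _))).product (PT.const _)))

theorem LS_pt : PT (LS k M) := by
  have h : PT fun φ => List.range (NN φ) := PT.range (NN_pt PT.id') (NN_pb PT.id')
  exact (tuples_pt 4 (((tuples_pt k h).product (PT.const _)).product (PT.const _))).product
    (PT.const _)

theorem HH_pt : PT (HH k M C) :=
  ((PT.const _).mul (LS_pt k M).length).mul (LG_pt k).length

theorem mat_pt : PT (mat k M C) := by
  have h0 : ∀ j, PT fun p : Inst × (Fin k → ℕ) × (Fin k → DD × Bool) => p.2.2 j :=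
    PT.apply (by fun_prop)
  have h0' : ∀ j, PT fun p : Inst × (Fin k → ℕ) × (Fin k → DD × Bool) => p.2.1 j :=
    PT.apply (by fun_prop)
  have h1 : PT fun p : Inst × (Fin k → ℕ) × (Fin k → DD × Bool) =>
      ((baseN p.1).rep k).nb p.2.1 p.2.2 := PT.pi fun j => PT.pair (PT.finite_cases (h0 j)
        (f := fun e p => tl p.1 (p.2.1 j) e) fun e => tl_pt e (by fun_prop) (h0' j)) (h0 j).fst
  have h2 : PT fun p : Inst × (Fin k → ℕ) × (Fin k → DD × Bool) =>
      ((baseN p.1).rep k).pj p.2.1 p.2.2 := PT.pi fun β => PT.pi fun j => PT.finite_cases (h0 j)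
        (f := fun e p => pjN p.1 (p.2.1 j) e (β j)) fun e =>
          PT.apply (pjN_pt e (by fun_prop) (h0' j)) _
  refine PT.map ((LG_pt k).product (PT.const _)) ?_
  simp only [List.map_append, List.map_map, Function.comp_def, vl, Sum.elim_inl, Sum.elim_inr]
  refine PT.append (PT.map (((LG_pt k).comp' (by fun_prop)).product (PT.const _)) ?_)
    (PT.map ((LS_pt k M).comp' (by fun_prop)) ?_)
  · exact PT.ite (PT.decide_eq (by fun_prop) (by fun_prop)) ((HH_pt k M C).comp' (by fun_prop))
      (PT.const _)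
  · classical
    refine PT.ite (PT.of_eq (PT.decide_mem (inst := fun _ => inferInstance) PT.id'.fst.snd
      (PT.map_fixed (agt_pt (Γ := fun φ => (baseN φ).rep k) h1 h2 PT.id'.fst.fst PT.id'.snd.fst)
        (List.finRange 4))) fun p => ?_)
      (PT.const _) (PT.const _)
    simp [wants]

variable {k M C}

theorem mat_inst (φ : Inst) : IsInstance (castM (mat k M C φ))
    (((LG k φ).product (univ : Finset Bool).toList).map Sum.inl ++ (LS k M φ).map Sum.inr).length := by
  refine ⟨fun h => ?_, HH k M C φ, fun row hr => ?_⟩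
  · have := congrArg List.length h
    rw [castM, mat, List.length_map, List.length_map, ((LG_enum k φ).prod Enum.fin).length] at this
    exact Fintype.card_ne_zero this
  · simp only [castM, mat, List.map_map, List.mem_map, Function.comp_def] at hr
    obtain ⟨a, -, rfl⟩ := hr
    refine ⟨List.length_map _, fun v hv => ?_⟩
    obtain ⟨g, -, rfl⟩ := List.mem_map.1 hv
    rcases g with g | g <;> simp only [vl, Sum.elim_inl, Sum.elim_inr] <;> split_ifs <;> simp

theorem decide_pt {α : ℝ} (hα : 0 < α) {A : List (List ℚ) → List ℕ} (hA : PT A)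
    (happ : IsApprox α A) {p q : ℕ} (hq : 0 < q) (h1 : p / q * α ^ 3 ≤ (M / (M + 1)) ^ 4)
    (h2 : (1 + 1 / (C + 1 : ℝ)) ^ 2 * (65 / 81 + 14 * (1 / (C + 1))) < p / q) {δ : ℝ} (hδ : 0 ≤ δ)
    (hC : (M + 1) * √δ * √(M + 1) ≤ 1 / (C + 1)) : ∃ F : Inst → Bool, PT F ∧ ∀ φ,
      (ISat φ → F φ = true) ∧ (((base φ).rep k).Coll (δ ^ 2) → ¬ F φ = true) := by
  refine ⟨fun φ => decide ((HH k M C φ * HH k M C φ * p * (LS k M φ).length) ^ (LG k φ).length ≤
    pv (mat k M C φ) (A (castM (mat k M C φ))) * (q * (LG k φ).length) ^ (LG k φ).length), ?_,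
    fun φ => ?_⟩
  · have a := LG_pt k
    have b := LS_pt k M
    have c := HH_pt k M C
    have d := pv_pt (mat_pt k M C) (hA.comp' (castM_pt (mat_pt k M C)))
    exact PT.decide_le (PT.pow (((c.mul c).mul (PT.const _)).mul b.length) a.length (PB.length a))
      (d.mul (PT.pow ((PT.const _).mul a.length) a.length (PB.length a)))
  obtain ⟨b1, b2⟩ := bridge ((LG_enum k φ).prod Enum.fin)
    (((LG_enum k φ).prod Enum.fin).sum (LS_enum k M φ))
    (vl_map (Γ := (baseN φ).rep k) (Γ' := (base φ).rep k) ((Enum.range _).tup k).2.1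
      (((Enum.range _).prod Enum.fin).tup k).2.1
      (fun u d => funext fun j => (base_nb (u j) (d j)).symm) (fun _ _ => rfl) (HH k M C φ))
  obtain ⟨a1, a2⟩ := happ _ _ (mat_inst (k := k) (M := M) (C := C) φ)
  have hl : (mat k M C φ).length = (LG k φ).length * 3 := by
    rw [mat, List.length_map, ((LG_enum k φ).prod Enum.fin).length, (LG_enum k φ).length,
      Fintype.card_prod, ZMod.card]
  have gn := fun h => gap_no (M := M) hδ (Γ := (base φ).rep k) h hC (H := HH k M C φ)
    (by rw [HH, (LG_enum k φ).length, (LS_enum k M φ).length])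
  have gy := fun (a : Fin (NN φ) → AA) (b : Fin (NN φ) × DD → AA × AA)
      (h : ∀ u e, (base φ).pj u e (b ((base φ).nb u e)) = a u) =>
    gap_yes (M := M) (Game.reg_rep (base_reg (φ := φ)) k) (σ := fun u j => a (u j))
      (τ := fun v j => b (v j)) (fun u d => funext fun j => h _ _) (HH k M C φ)
  have n0 : 0 < (LG k φ).length := (LG_enum k φ).length ▸ Fintype.card_pos
  have m0 : 0 < (LS k M φ).length := (LS_enum k M φ).length ▸ Fintype.card_pos
  have H0 : 0 < HH k M C φ := by unfold HH; positivity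
  rw [← (LG_enum k φ).length, ← (LS_enum k M φ).length] at gn gy
  simp only [NW_eq, hl] at a2
  rw [← mat] at b1 b2
  rw [decide_eq_true_eq, ← Nat.cast_le (α := ℝ)]
  push_cast
  rw [← div_le_iff₀ (by positivity), ← div_pow]
  generalize (LG k φ).length = n at *
  generalize (LS k M φ).length = m at *
  have e : (HH k M C φ : ℝ) * HH k M C φ * p * m / (q * n) =
      HH k M C φ ^ 2 * (p / q * (m / n)) := by field_simp
  rw [e]
  refine ⟨fun h => ?_, fun h => not_le.2 ?_⟩
  · obtain ⟨a, b, h⟩ := base_complete h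
    obtain ⟨o', h3⟩ := gy a b h
    obtain ⟨o, h4, h5⟩ := b2 o'
    have h6 := pow_le_pow_left₀ (by positivity) (a2 o h4) (n * 3)
    rw [div_pow, one_div, Real.rpow_inv_natCast_pow (by positivity) (by positivity),
      Real.rpow_inv_natCast_pow (by positivity) (by positivity), h5] at h6
    refine le_trans ?_ (le_trans (div_le_div_of_nonneg_right h3 (by positivity)) h6)
    rw [pow_mul', ← div_pow]
    refine pow_le_pow_left₀ (by positivity) ?_ _
    rw [le_div_iff₀ (by positivity), mul_assoc, mul_right_comm]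
    gcongr
  · obtain ⟨o', h3⟩ := b1 _ a1
    rw [h3]
    refine (gn h o').trans_lt (pow_lt_pow_left₀ ?_ (by positivity) n0.ne')
    gcongr

open Filter Topology in
theorem params {α : ℝ} (hα : 0 < α) (h : α ^ 3 < 81 / 65) : ∃ p q M C : ℕ, 0 < q ∧
    p / q * α ^ 3 ≤ (M / (M + 1)) ^ 4 ∧
    (1 + 1 / (C + 1 : ℝ)) ^ 2 * (65 / 81 + 14 * (1 / (C + 1))) < p / q := by
  obtain ⟨r, r1, r2⟩ := exists_rat_btwn (show (65 / 81 : ℝ) < 1 / α ^ 3 by
    rw [lt_div_iff₀ (by positivity)]; linarith)
  have r0 : 0 ≤ r := by exact_mod_cast (show (0 : ℝ) ≤ r by linarith)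
  have e : (r.num.toNat : ℝ) / r.den = r := by
    rw [Rat.cast_def, ← Int.cast_natCast, Int.toNat_of_nonneg (Rat.num_nonneg.2 r0)]
  rw [lt_div_iff₀ (by positivity)] at r2
  have t1 := (tendsto_natCast_div_add_atTop (1 : ℝ)).pow 4
  have t0 := tendsto_one_div_add_atTop_nhds_zero_nat (𝕜 := ℝ)
  have t2 := ((t0.const_add 1).pow 2).mul ((t0.const_mul 14).const_add (65 / 81))
  obtain ⟨M, hM⟩ := (t1.eventually (lt_mem_nhds (show r * α ^ 3 < 1 ^ 4 by linarith))).exists
  obtain ⟨C, hC⟩ := (t2.eventually (gt_mem_nhds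
    (show ((1 : ℝ) + 0) ^ 2 * (65 / 81 + 14 * 0) < r by linarith))).exists
  exact ⟨r.num.toNat, r.den, M, C, r.pos, e ▸ hM.le, e ▸ hC⟩

theorem hardness {α : ℝ} (hα : 0 < α) (h : α ^ 3 < 81 / 65) {A : List (List ℚ) → List ℕ}
    (hA : N68a2faeb.IsPolyTime A) (happ : IsApprox α A) : N68a2faeb.P = N68a2faeb.NP := by
  refine Set.Subset.antisymm (fun L hL => ⟨0, fun z => L z.1,
    ((PT.ofIsPolyTime hL).comp' PT.id'.fst).isPolyTime, fun x =>
      ⟨fun h => ⟨[], by simp, h⟩, fun ⟨_, _, h⟩ => h⟩⟩) fun L hL => ?_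
  obtain ⟨p, q, M, C, hq, h1, h2⟩ := params hα h
  obtain ⟨k, hk⟩ := label_cover (δ := (1 / ((C + 1) * (M + 1) ^ 2)) ^ 2) (by positivity)
  obtain ⟨f, hf, h3⟩ := hk L hL
  obtain ⟨F, hF, h4⟩ := decide_pt (k := k) hα (PT.ofIsPolyTime hA) happ hq h1 h2
    (δ := (1 / ((C + 1) * (M + 1) ^ 2)) ^ 2) (by positivity) (by
      rw [Real.sqrt_sq (by positivity)]
      have : √(M + 1) ≤ M + 1 := Real.sqrt_le_iff.2 ⟨by positivity, by
        have : (0 : ℝ) ≤ M := Nat.cast_nonneg M
        nlinarith⟩
      exact (mul_le_mul_of_nonneg_left this (by positivity)).trans_eq (by field_simp))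
  refine ((hF.comp' hf).of_eq fun x => ?_).isPolyTime
  rw [Bool.eq_iff_iff]
  exact ⟨fun a => by_contra fun b => (h4 _).2 ((h3 x).2 b) a, fun a => (h4 _).1 ((h3 x).1 a)⟩

end Pool.Agent.Lib.MP_778288_lc
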