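import Pool.Agent.Lib.MP_778288_lc.Defs

/-!
Restricted assignment instances of maximum Nash welfare.
-/

noncomputable section

namespace Pool.Agent.Lib.MP_778288_lc

/-- A restricted assignment instance with at least one agent and `m` goods: every good `g` has
one value `w`, equal to `1` or to one natural number `H`, and a set `S` of at most four agents
who value it at `w`; all other agents value it at `0`. -/
def IsRestricted (I : List (List ℚ)) (m : ℕ) : Prop :=
  I ≠ [] ∧ (∀ row ∈ I, row.length = m) ∧ ∃ H : ℕ, ∀ g < m, ∃ (w : ℚ) (S : Finset ℕ),
    (w = 1 ∨ w = H) ∧ S.card ≤ 4 ∧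
      ∀ i < I.length, (I.getD i []).getD g 0 = if i ∈ S then w else 0

/-- `A` returns on every restricted assignment instance an allocation within a factor `α` of
every allocation. -/
def IsApproxR (α : ℝ) (A : List (List ℚ) → List ℕ) : Prop :=
  ∀ I m, IsRestricted I m →
    IsAllocation I m (A I) ∧ ∀ o, IsAllocation I m o → NW I o / α ≤ NW I (A I)

end Pool.Agent.Lib.MP_778288_lc
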