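import Pool.Agent.Lib.MP_778288_lc.Reduce
import Pool.Agent.Lib.MP_778288_lc.RestrDefs

/-!
The instances of the reduction are restricted assignment instances.
-/

set_option synthInstance.maxSize 4000

noncomputable section

namespace Pool.Agent.Lib.MP_778288_lc

open Finset Pool.Agent.Shared.PCP Pool.Agent.Shared.PolyTime

open Classical in
theorem restr_of {X Y : Type} {L : List X} {L' : List Y} (h0 : L ≠ []) (hL : L.Nodup)
    (v : X → Y → ℕ) (H : ℕ) (h : ∀ g, ∃ (w : ℕ) (T : Finset X), (w = 1 ∨ w = H) ∧ T.card ≤ 4 ∧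
      ∀ a, v a g = if a ∈ T then w else 0) :
    IsRestricted (castM (L.map fun a => L'.map (v a))) L'.length := by
  refine ⟨fun h => h0 (by simpa [castM] using h), fun row hr => ?_, H, fun g hg => ?_⟩
  · simp only [castM, List.map_map, List.mem_map, Function.comp_def] at hr
    obtain ⟨a, -, rfl⟩ := hr
    exact List.length_map _
  · obtain ⟨w, T, h1, h2, h3⟩ := h L'[g]
    refine ⟨w, T.image fun a => L.idxOf a, by exact_mod_cast h1, card_image_le.trans h2,
      fun i hi => ?_⟩
    have hi' : i < L.length := by simpa [castM] using hi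
    have e : i ∈ T.image (fun a => L.idxOf a) ↔ L[i] ∈ T := by
      rw [mem_image]
      refine ⟨?_, fun h => ⟨_, h, hL.idxOf_getElem _ hi'⟩⟩
      rintro ⟨a, ha, rfl⟩
      rwa [List.getElem_idxOf]
    simp only [e]
    rw [List.getD_eq_getElem _ _ hi]
    simp only [castM, List.getElem_map]
    rw [List.getD_eq_getElem _ _ (by simpa using hg)]
    simp only [List.getElem_map, h3]
    split_ifs <;> simp

variable {k M C : ℕ}

theorem mat_restr (φ : Inst) : IsRestricted (castM (mat k M C φ))
    (((LG k φ).product (univ : Finset Bool).toList).map Sum.inl ++ (LS k M φ).map Sum.inr).length := by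
  classical
  refine restr_of (fun h => ?_) ((LG_enum k φ).prod Enum.fin).1 _ (HH k M C φ) fun g => ?_
  · have := congrArg List.length h
    rw [((LG_enum k φ).prod Enum.fin).length] at this
    exact Fintype.card_ne_zero this
  · rcases g with g | g
    · refine ⟨_, univ.image fun x : K => (g.1, x), Or.inr rfl, card_image_le.trans (by decide),
        fun a => ?_⟩
      simp only [vl, Sum.elim_inl]
      congr 1
      simp only [mem_image, mem_univ, true_and, eq_iff_iff]
      exact ⟨fun h => ⟨a.2, Prod.ext h rfl⟩, fun ⟨_, h⟩ => congrArg Prod.fst h⟩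
    · refine ⟨_, univ.image (agt ((baseN φ).rep k) g.1), Or.inl rfl,
        card_image_le.trans (by simp), fun a => ?_⟩
      simp only [vl, Sum.elim_inr]
      refine if_congr ?_ rfl rfl
      simp [wants]

theorem decide_ptR {α : ℝ} (hα : 0 < α) {A : List (List ℚ) → List ℕ} (hA : PT A)
    (happ : IsApproxR α A) {p q : ℕ} (hq : 0 < q) (h1 : p / q * α ^ 3 ≤ (M / (M + 1)) ^ 4)
    (h2 : (1 + 1 / (C + 1 : ℝ)) ^ 2 * (65 / 81 + 14 * (1 / (C + 1))) < p / q) {δ : ℝ} (hδ : 0 ≤ δ)
    (hC : (M + 1) * √δ * √(M + 1) ≤ 1 / (C + 1)) : ∃ F : Inst → Bool, PT F ∧ ∀ φ,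
      (ISat φ → F φ = true) ∧ (((base φ).rep k).Coll (δ ^ 2) → ¬ F φ = true) := by
  refine ⟨fun φ => decide ((HH k M C φ * HH k M C φ * p * (LS k M φ).length) ^ (LG k φ).length ≤
    pv (mat k M C φ) (A (castM (mat k M C φ))) * (q * (LG k φ).length) ^ (LG k φ).length), ?_,
    fun φ => ?_⟩
  · have a := LG_pt k
    have b := LS_pt k M
    have c := HH_pt k M C
    have d := pv_pt (mat_pt k M C) (hA.comp' (castM_pt (mat_pt k M C)))
    exact PT.decide_le (PT.pow (((c.mul c).mul (PT.const _)).mul b.length) a.length (PB.length a))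
      (d.mul (PT.pow ((PT.const _).mul a.length) a.length (PB.length a)))
  obtain ⟨b1, b2⟩ := bridge ((LG_enum k φ).prod Enum.fin)
    (((LG_enum k φ).prod Enum.fin).sum (LS_enum k M φ))
    (vl_map (Γ := (baseN φ).rep k) (Γ' := (base φ).rep k) ((Enum.range _).tup k).2.1
      (((Enum.range _).prod Enum.fin).tup k).2.1
      (fun u d => funext fun j => (base_nb (u j) (d j)).symm) (fun _ _ => rfl) (HH k M C φ))
  obtain ⟨a1, a2⟩ := happ _ _ (mat_restr (k := k) (M := M) (C := C) φ)
  have hl : (mat k M C φ).length = (LG k φ).length * 3 := by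
    rw [mat, List.length_map, ((LG_enum k φ).prod Enum.fin).length, (LG_enum k φ).length,
      Fintype.card_prod, ZMod.card]
  have gn := fun h => gap_no (M := M) hδ (Γ := (base φ).rep k) h hC (H := HH k M C φ)
    (by rw [HH, (LG_enum k φ).length, (LS_enum k M φ).length])
  have gy := fun (a : Fin (NN φ) → AA) (b : Fin (NN φ) × DD → AA × AA)
      (h : ∀ u e, (base φ).pj u e (b ((base φ).nb u e)) = a u) =>
    gap_yes (M := M) (Game.reg_rep (base_reg (φ := φ)) k) (σ := fun u j => a (u j))
      (τ := fun v j => b (v j)) (fun u d => funext fun j => h _ _) (HH k M C φ)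
  have n0 : 0 < (LG k φ).length := (LG_enum k φ).length ▸ Fintype.card_pos
  have m0 : 0 < (LS k M φ).length := (LS_enum k M φ).length ▸ Fintype.card_pos
  have H0 : 0 < HH k M C φ := by unfold HH; positivity
  rw [← (LG_enum k φ).length, ← (LS_enum k M φ).length] at gn gy
  simp only [NW_eq, hl] at a2
  rw [← mat] at b1 b2
  rw [decide_eq_true_eq, ← Nat.cast_le (α := ℝ)]
  push_cast
  rw [← div_le_iff₀ (by positivity), ← div_pow]
  generalize (LG k φ).length = n at *
  generalize (LS k M φ).length = m at *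
  have e : (HH k M C φ : ℝ) * HH k M C φ * p * m / (q * n) =
      HH k M C φ ^ 2 * (p / q * (m / n)) := by field_simp
  rw [e]
  refine ⟨fun h => ?_, fun h => not_le.2 ?_⟩
  · obtain ⟨a, b, h⟩ := base_complete h
    obtain ⟨o', h3⟩ := gy a b h
    obtain ⟨o, h4, h5⟩ := b2 o'
    have h6 := pow_le_pow_left₀ (by positivity) (a2 o h4) (n * 3)
    rw [div_pow, one_div, Real.rpow_inv_natCast_pow (by positivity) (by positivity),
      Real.rpow_inv_natCast_pow (by positivity) (by positivity), h5] at h6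
    refine le_trans ?_ (le_trans (div_le_div_of_nonneg_right h3 (by positivity)) h6)
    rw [pow_mul', ← div_pow]
    refine pow_le_pow_left₀ (by positivity) ?_ _
    rw [le_div_iff₀ (by positivity), mul_assoc, mul_right_comm]
    gcongr
  · obtain ⟨o', h3⟩ := b1 _ a1
    rw [h3]
    refine (gn h o').trans_lt (pow_lt_pow_left₀ ?_ (by positivity) n0.ne')
    gcongr

theorem hardnessR {α : ℝ} (hα : 0 < α) (h : α ^ 3 < 81 / 65) {A : List (List ℚ) → List ℕ}
    (hA : N68a2faeb.IsPolyTime A) (happ : IsApproxR α A) : N68a2faeb.P = N68a2faeb.NP := by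
  refine Set.Subset.antisymm (fun L hL => ⟨0, fun z => L z.1,
    ((PT.ofIsPolyTime hL).comp' PT.id'.fst).isPolyTime, fun x =>
      ⟨fun h => ⟨[], by simp, h⟩, fun ⟨_, _, h⟩ => h⟩⟩) fun L hL => ?_
  obtain ⟨p, q, M, C, hq, h1, h2⟩ := params hα h
  obtain ⟨k, hk⟩ := label_cover (δ := (1 / ((C + 1) * (M + 1) ^ 2)) ^ 2) (by positivity)
  obtain ⟨f, hf, h3⟩ := hk L hL
  obtain ⟨F, hF, h4⟩ := decide_ptR (k := k) hα (PT.ofIsPolyTime hA) happ hq h1 h2
    (δ := (1 / ((C + 1) * (M + 1) ^ 2)) ^ 2) (by positivity) (by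
      rw [Real.sqrt_sq (by positivity)]
      have : √(M + 1) ≤ M + 1 := Real.sqrt_le_iff.2 ⟨by positivity, by
        have : (0 : ℝ) ≤ M := Nat.cast_nonneg M
        nlinarith⟩
      exact (mul_le_mul_of_nonneg_left this (by positivity)).trans_eq (by field_simp))
  refine ((hF.comp' hf).of_eq fun x => ?_).isPolyTime
  rw [Bool.eq_iff_iff]
  exact ⟨fun a => by_contra fun b => (h4 _).2 ((h3 x).2 b) a, fun a => (h4 _).1 ((h3 x).1 a)⟩

end Pool.Agent.Lib.MP_778288_lc
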