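import Pool.Agent.Lib.MP_778288_lc.Complete

/-!
The welfare gap of the gadget construction.
-/

set_option linter.unusedSectionVars false
set_option synthInstance.maxSize 2000

noncomputable section

namespace Pool.Agent.Lib.MP_778288_lc

open Finset Pool.Agent.Shared.PCP

open Classical in
/-- The values: two huge items for each gadget, and small items. -/
def vl {G I : Type} (want : I → G × K → Prop) (H : ℕ) (a : G × K) (g : G × Bool ⊕ I) : ℕ :=
  g.elim (fun h => if h.1 = a.1 then H else 0) (fun z => if want z a then 1 else 0)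

/-- The value of a bundle. -/
def bv {X Y : Type} [Fintype Y] (v : X → Y → ℕ) (o : Y → X) (a : X) : ℝ :=
  ∑ g, ind (o g = a) * v a g

theorem prod_K (f : K → ℝ) (s : K) : ∏ x, f x = f s * f (s + 1) * f (s + 2) := by
  rw [← Equiv.prod_comp (Equiv.addLeft s)]
  exact (Fin.prod_univ_three (fun x : K => f (s + x))).trans (congrArg (f · * _ * _) (add_zero s))

theorem amgm {G : Type} [Fintype G] [Nonempty G] {z : G → ℝ} (hz : ∀ γ, 0 ≤ z γ) :
    ∏ γ, z γ ≤ Ex z ^ Fintype.card G := by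
  have h0 : (Fintype.card G : ℝ) ≠ 0 := card_pos_real.ne'
  have h := Real.geom_mean_le_arith_mean_weighted univ (fun _ => (Fintype.card G : ℝ)⁻¹) z
    (fun _ _ => by positivity) (by simp) fun γ _ => hz γ
  have h1 := pow_le_pow_left₀ (prod_nonneg fun γ _ => Real.rpow_nonneg (hz γ) _) h (Fintype.card G)
  rw [← prod_pow, ← mul_sum, mul_comm, ← div_eq_mul_inv] at h1
  refine le_of_eq_of_le (prod_congr rfl fun γ _ => ?_) h1
  rw [Real.rpow_inv_natCast_pow (hz γ) Fintype.card_ne_zero]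

variable {G I : Type} [Fintype G] [Fintype I] {want : I → G × K → Prop} {H : ℕ}

theorem bv_eq (o : G × Bool ⊕ I → G × K) (a : G × K) : bv (vl want H) o a =
    H * (ind (o (.inl (a.1, true)) = a) + ind (o (.inl (a.1, false)) = a)) +
      ∑ z, ind (o (.inr z) = a ∧ want z a) := by
  classical
  simp only [bv, vl, Fintype.sum_sum_type, Sum.elim_inl, Sum.elim_inr, Fintype.sum_prod_type,
    ind_and, Nat.cast_ite, Nat.cast_one, Nat.cast_zero, ← ind_eq_ite]
  congr 1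
  rw [sum_eq_single a.1 (fun γ _ h => by simp [h]) (by simp)]
  simp [mul_add, mul_comm]

theorem welfare_yes {ℓ : G → K} {own : I → G × K} (h : ∀ z, want z (own z)) {y : ℝ} (hy : 0 ≤ y)
    (h1 : ∀ γ, y ≤ ∑ z, ind (own z = (γ, ℓ γ))) :
    ∃ o, (H ^ 2 * y) ^ Fintype.card G ≤ ∏ a, bv (vl want H) o a := by
  refine ⟨Sum.elim (fun g => (g.1, ℓ g.1 + cond g.2 1 2)) own, ?_⟩
  rw [Fintype.prod_prod_type, ← card_univ, ← prod_const]
  refine prod_le_prod (fun _ _ => by positivity) fun γ _ => ?_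
  rw [prod_K _ (ℓ γ)]
  simp only [bv_eq, Sum.elim_inl, Sum.elim_inr, cond_true, cond_false, ind_pos trivial]
  have a : ∀ p, (0 : ℝ) ≤ H * ind p := fun p => mul_nonneg (Nat.cast_nonneg _) (ind_nonneg _)
  have b : ∀ a, 0 ≤ ∑ z, ind (own z = a ∧ want z a) := fun _ => sum_nonneg fun _ _ => ind_nonneg _
  have c : y ≤ ∑ z, ind (own z = (γ, ℓ γ) ∧ want z (γ, ℓ γ)) :=
    (h1 γ).trans (sum_le_sum fun z _ => ind_mono fun e => ⟨e, e ▸ h z⟩)
  rw [show (H : ℝ) ^ 2 * y = y * H * H by ring]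
  simp only [mul_add (H : ℝ), mul_one]
  refine mul_le_mul (mul_le_mul (c.trans (le_add_of_nonneg_left (add_nonneg (a _) (a _))))
    ((le_add_of_nonneg_right (a _)).trans (le_add_of_nonneg_right (b _))) (Nat.cast_nonneg _)
    (add_nonneg (add_nonneg (a _) (a _)) (b _)))
    ((le_add_of_nonneg_left (a _)).trans (le_add_of_nonneg_right (b _))) (Nat.cast_nonneg _) ?_
  exact mul_nonneg (add_nonneg (add_nonneg (a _) (a _)) (b _))
    (add_nonneg (add_nonneg (Nat.cast_nonneg _) (a _)) (b _))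

theorem gadget {H m : ℝ} (hH : 0 < H) {w : K → ℝ} (h0 : ∀ s, 0 ≤ w s) (h1 : ∀ s, w s ≤ m)
    (s s' : K) : ∃ ℓ, ∏ x, (H * (ind (s = x) + ind (s' = x)) + w x) ≤
      (H + m) ^ 2 * (w ℓ + 2 * m ^ 2 / H) := by
  have m0 : 0 ≤ m := (h0 0).trans (h1 0)
  have t0 : 0 ≤ 2 * m ^ 2 / H := by positivity
  have e : ∀ s : K, s ≠ s + 1 ∧ s ≠ s + 2 ∧ s + 1 ≠ s ∧ s + 1 ≠ s + 2 ∧ s + 2 ≠ s ∧ s + 2 ≠ s + 1 := by
    decide
  have e' : ∀ s s' : K, s' = s ∨ s' = s + 1 ∨ s' = s + 2 := by decide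
  obtain ⟨e1, e2, e3, e4, e5, e6⟩ := e s
  have := h0 s
  have := h0 (s + 1)
  have := h0 (s + 2)
  rw [prod_K _ s]
  obtain h | h | h := e' s s'
  all_goals
    subst h
    simp only [ind_pos trivial, ind_neg e1, ind_neg e2, ind_neg e3, ind_neg e4, ind_neg e5, ind_neg e6,
      add_zero, zero_add, mul_zero, mul_one]
  · refine ⟨0, le_trans (b := (H * (1 + 1) + m) * m * m) (by gcongr <;> exact h1 _) ?_⟩
    have : (H + m) ^ 2 * (2 * m ^ 2 / H) = (H * (1 + 1) + m) * m * m + m ^ 3 * (3 + 2 * m / H) := by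
      field_simp; ring
    rw [mul_add ((H + m) ^ 2), this]
    have := h0 0
    have : 0 ≤ (H + m) ^ 2 * w 0 + m ^ 3 * (3 + 2 * m / H) := by positivity
    linarith
  · refine ⟨s + 2, ?_⟩
    rw [sq (H + m)]
    gcongr
    exacts [h1 _, h1 _, le_add_of_nonneg_right t0]
  · refine ⟨s + 1, ?_⟩
    rw [sq (H + m), mul_right_comm]
    gcongr
    exacts [h1 _, h1 _, le_add_of_nonneg_right t0]

theorem welfare_no [Nonempty G] (hH : 0 < H) {b : ℝ}
    (h : ∀ ℓ : G → K, ∑ z, ind (∃ γ, want z (γ, ℓ γ)) ≤ b) (o : G × Bool ⊕ I → G × K) :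
    ∏ a, bv (vl want H) o a ≤ ((H + Fintype.card I) ^ 2 *
      (b / Fintype.card G + 2 * (Fintype.card I) ^ 2 / H)) ^ Fintype.card G := by
  classical
  have w0 : ∀ a, 0 ≤ ∑ z, ind (o (.inr z) = a ∧ want z a) := fun _ =>
    sum_nonneg fun _ _ => ind_nonneg _
  have H0 : (0 : ℝ) < H := Nat.cast_pos.2 hH
  choose ℓ hℓ using fun γ => gadget H0 (m := Fintype.card I)
    (w := fun s => ∑ z, ind (o (.inr z) = (γ, s) ∧ want z (γ, s))) (fun _ => w0 _)
    (fun _ => (sum_le_sum fun _ _ => ind_le_one _).trans_eq (by simp))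
    (o (.inl (γ, true))).2 (o (.inl (γ, false))).2
  have h1 : ∏ a, bv (vl want H) o a ≤ ∏ γ, (H + Fintype.card I : ℝ) ^ 2 *
      (∑ z, ind (o (.inr z) = (γ, ℓ γ) ∧ want z (γ, ℓ γ)) + 2 * (Fintype.card I) ^ 2 / H) := by
    rw [Fintype.prod_prod_type]
    have : ∀ a, 0 ≤ bv (vl want H) o a := fun a =>
      sum_nonneg fun _ _ => mul_nonneg (ind_nonneg _) (Nat.cast_nonneg _)
    refine prod_le_prod (fun _ _ => prod_nonneg fun _ _ => this _) fun γ _ => le_trans
      (prod_le_prod (fun _ _ => this _) fun s _ => ?_) (hℓ γ)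
    rw [bv_eq]
    gcongr <;> exact ind_mono fun e => by rw [e]
  refine h1.trans ((amgm fun γ => ?_).trans (pow_le_pow_left₀ (Ex_nonneg fun γ => ?_) ?_ _))
  · have := w0 (γ, ℓ γ); positivity
  · have := w0 (γ, ℓ γ); positivity
  rw [Ex_mul_left, Ex_add, Ex_const, Ex, sum_comm]
  gcongr
  refine le_trans (sum_le_sum fun z _ => ?_) (h ℓ)
  rw [← sum_ind_eq (o (.inr z)).1 fun _ => ind (∃ γ, want z (γ, ℓ γ))]
  refine sum_le_sum fun γ _ => ?_
  rw [← ind_and]
  exact ind_mono fun e => ⟨by rw [e.1], γ, e.2⟩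

variable {U D V A B : Type} {M : ℕ}

/-- Small items. -/
abbrev Item (M : ℕ) (U D A B : Type) := (Fin 4 → Samp M U D A B) × Fin 4

/-- The agents that want a small item. -/
def wants (Γ : Game U D V A B) (z : Item M U D A B) (a : Gad U V A B × K) : Prop :=
  ∃ i, agt Γ z.1 i = a

variable [Fintype U] [Fintype D] [Fintype V] [Fintype A] [DecidableEq A] [Fintype B]
  [DecidableEq B] [Nonempty U] [Nonempty D] [Nonempty V] {Γ : Game U D V A B}

theorem gap_yes (hΓ : Γ.Reg) {σ : U → A} {τ : V → B} (h : ∀ u d, Γ.pj u d (τ (Γ.nb u d)) = σ u)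
    (H : ℕ) : ∃ o, (H ^ 2 * ((M / (M + 1)) ^ 4 * (Fintype.card (Item M U D A B) /
      Fintype.card (Gad U V A B)))) ^ Fintype.card (Gad U V A B) ≤
        ∏ a, bv (vl (wants (M := M) Γ) H) o a := by
  obtain ⟨ℓ, o, h1⟩ := complete (M := M) Γ σ τ hΓ h
  refine welfare_yes (ℓ := ℓ) (own := fun z => agt Γ z.1 (o z)) (fun z => ⟨_, rfl⟩)
    (by positivity) fun γ => ?_
  have := h1 γ
  rw [Ex, le_div_iff₀ card_pos_real] at this
  exact le_of_eq_of_le (by ring) this

theorem gap_no {δ : ℝ} (hδ : 0 ≤ δ) (hΓ : Γ.Coll (δ ^ 2)) {C : ℕ}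
    (hC : (M + 1) * √δ * √(M + 1) ≤ 1 / (C + 1)) {H : ℕ}
    (hH : H = (C + 1) * Fintype.card (Item M U D A B) * Fintype.card (Gad U V A B))
    (o : Gad U V A B × Bool ⊕ Item M U D A B → Gad U V A B × K) :
    ∏ a, bv (vl (wants Γ) H) o a ≤
      (H ^ 2 * ((1 + 1 / (C + 1)) ^ 2 * (65 / 81 + 14 * (1 / (C + 1))) *
        (Fintype.card (Item M U D A B) / Fintype.card (Gad U V A B)))) ^
          Fintype.card (Gad U V A B) := by
  have m0 : 0 < Fintype.card (Item M U D A B) := Fintype.card_pos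
  have n0 : 0 < Fintype.card (Gad U V A B) := Fintype.card_pos
  refine (welfare_no (by rw [hH]; positivity)
    (b := (65 / 81 + 12 * (1 / (C + 1))) * Fintype.card (Item M U D A B)) (fun ℓ => ?_) o).trans
      (pow_le_pow_left₀ (by positivity) ?_ _)
  · rw [← div_le_iff₀ card_pos_real]
    refine le_trans (le_of_eq ?_) ((cover (M := M) hδ hΓ ℓ).trans (by linarith))
    rw [pr, ← Ex_fst (β := Fin 4)]
    refine Ex_congr fun z => ind_congr ⟨fun ⟨γ, i, e⟩ => ⟨i, by rw [e]⟩, fun ⟨i, e⟩ => ?_⟩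
    exact ⟨(agt Γ z.1 i).1, i, by rw [← e]⟩
  · rw [hH]
    generalize Fintype.card (Item M U D A B) = m at m0
    generalize Fintype.card (Gad U V A B) = n at n0
    have n1 : (1 : ℝ) ≤ n := by exact_mod_cast n0
    have m1 : (0 : ℝ) < m := by exact_mod_cast m0
    push_cast
    rw [← mul_assoc, ← mul_assoc, ← mul_pow, mul_assoc (_ ^ 2)]
    refine mul_le_mul (pow_le_pow_left₀ (by positivity) ?_ _) (le_of_eq ?_) (by positivity)
      (by positivity)
    · rw [show ((C : ℝ) + 1) * m * n * (1 + 1 / (C + 1)) = (C + 1) * m * n + m * n by field_simp]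
      nlinarith
    · field_simp; ring

end Pool.Agent.Lib.MP_778288_lc
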